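import Pool.Agent.Work.MP_49847a_an.Lf.B8

/-!
# Homogeneous hypersurfaces: the theorem
-/

namespace Pool.Agent.Work.MP_49847a_an

open MvPolynomial

variable {n : ℕ}

/-- the coordinate functions -/
noncomputable def lco (n : ℕ) : Fin n ⊕ Fin n → ((Fin n → ℂ) →ₗ[ℝ] ℝ)
  | Sum.inl i => Complex.reLm ∘ₗ (LinearMap.proj i)
  | Sum.inr i => Complex.imLm ∘ₗ (LinearMap.proj i)

theorem ev_X (j : Fin n ⊕ Fin n) (z : Fin n → ℂ) : ev (X j) z = lco n j z := by
  rcases j with j | j <;> simp [ev, lco]

theorem exists_quad (r : MvPolynomial (Fin n ⊕ Fin n) ℝ) (hr : r.IsHomogeneous 2) :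
    ∃ h : QuadraticForm ℝ (Fin n → ℂ), ∀ z, h z = ev r z := by
  classical
  have hmon : ∀ s ∈ r.support, ∃ h : QuadraticForm ℝ (Fin n → ℂ), ∀ z,
      h z = ev (monomial s (coeff s r)) z := by
    intro s hs
    have hdeg : s.degree = 2 := by
      rw [Finsupp.degree_eq_weight_one]
      exact hr (mem_support_iff.mp hs)
    have hs0 : s ≠ 0 := by
      rintro rfl
      simp at hdeg
    obtain ⟨i, hi⟩ : ∃ i, s i ≠ 0 := by
      by_contra hcon
      push Not at hcon
      exact hs0 (Finsupp.ext hcon)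
    obtain ⟨s', hs'⟩ : ∃ s', s = Finsupp.single i 1 + s' := by
      refine ⟨s - Finsupp.single i 1, ?_⟩
      rw [add_tsub_cancel_of_le]
      rw [Finsupp.single_le_iff]
      omega
    have hdeg' : s'.degree = 1 := by
      rw [hs', map_add] at hdeg
      simp at hdeg
      omega
    have hs0' : s' ≠ 0 := by
      rintro rfl
      simp at hdeg'
    obtain ⟨j, hj0⟩ : ∃ j, s' j ≠ 0 := by
      by_contra hcon
      push Not at hcon
      exact hs0' (Finsupp.ext hcon)
    obtain ⟨s'', hs''⟩ : ∃ s'', s' = Finsupp.single j 1 + s'' := by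
      refine ⟨s' - Finsupp.single j 1, ?_⟩
      rw [add_tsub_cancel_of_le]
      rw [Finsupp.single_le_iff]
      omega
    have hj : s' = Finsupp.single j 1 := by
      rw [hs'', map_add] at hdeg'
      simp at hdeg'
      rw [hs'', (Finsupp.degree_eq_zero_iff s'').mp hdeg', add_zero]
    refine ⟨coeff s r • QuadraticMap.linMulLin (lco n i) (lco n j), fun z => ?_⟩
    have h1 : monomial s (coeff s r) = C (coeff s r) * (X i * X j) := by
      rw [hs', hj, X, X, monomial_mul, C_mul_monomial]
      simp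
    rw [h1, ev_mul, ev_C, ev_mul, ev_X, ev_X]
    simp [QuadraticMap.linMulLin_apply]
  choose! h hh using hmon
  refine ⟨∑ s ∈ r.support, h s, fun z => ?_⟩
  conv_rhs => rw [r.as_sum, ev_sum]
  rw [sum_apply]
  exact Finset.sum_congr rfl fun s hs => hh s hs z

theorem hom_bound {Q : MvPolynomial (Fin n ⊕ Fin n) ℝ} {d : ℕ} (hd : 0 < d)
    (hQ : Q.IsHomogeneous (2 * d)) (hpos : ∀ z, z ≠ 0 → 0 < ev Q z) :
    ∃ N : ℝ, ∀ u, ev Q u = 1 → nn u < N := by
  set S : Set (Fin n → ℂ) := {z | nn z = 1} with hS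
  have hcl : IsClosed S := isClosed_eq nn_continuous continuous_const
  have hbd : Bornology.IsBounded S := by
    refine (Metric.isBounded_closedBall (x := (0 : Fin n → ℂ)) (r := 1)).subset ?_
    intro z hz
    rw [mem_closedBall_zero_iff, pi_norm_le_iff_of_nonneg zero_le_one]
    intro i
    have h1 : ‖z i‖ ^ 2 ≤ 1 := by
      have h2 : ∑ i, ‖z i‖ ^ 2 = 1 := hz
      rw [← h2]
      exact Finset.single_le_sum (f := fun i => ‖z i‖ ^ 2) (fun _ _ => sq_nonneg _)
        (Finset.mem_univ i)
    have h3 : (0 : ℝ) ≤ ‖z i‖ := norm_nonneg _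
    nlinarith
  have hcp : IsCompact S := Metric.isCompact_of_isClosed_isBounded hcl hbd
  have hscale : ∀ z : Fin n → ℂ, 0 < nn z → ∃ u ∈ S, ev Q z = nn z ^ d * ev Q u := by
    intro z hz
    have hr : 0 < Real.sqrt (nn z) := Real.sqrt_pos.mpr hz
    refine ⟨(((Real.sqrt (nn z))⁻¹ : ℝ) : ℂ) • z, ?_, ?_⟩
    · show nn _ = 1
      have h1 : ∀ i, ‖((((Real.sqrt (nn z))⁻¹ : ℝ) : ℂ) • z) i‖ ^ 2 = (nn z)⁻¹ * ‖z i‖ ^ 2 := by
        intro i
        rw [Pi.smul_apply, norm_smul, mul_pow, Complex.norm_real, Real.norm_eq_abs, sq_abs,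
          inv_pow, Real.sq_sqrt hz.le]
      unfold nn at h1 ⊢
      rw [Finset.sum_congr rfl fun i _ => h1 i, ← Finset.mul_sum]
      exact inv_mul_cancel₀ hz.ne'
    · rw [ev_hom hQ, pow_mul, inv_pow, Real.sq_sqrt hz.le, ← mul_assoc, ← mul_pow,
        mul_inv_cancel₀ hz.ne', one_pow, one_mul]
  rcases S.eq_empty_or_nonempty with he | hne
  · refine ⟨1, fun u _ => ?_⟩
    rcases (nn_nonneg u).eq_or_lt with h0 | h0
    · rw [← h0]
      exact one_pos
    · obtain ⟨w, hw, _⟩ := hscale u h0
      rw [he] at hw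
      exact absurd hw (Set.notMem_empty w)
  · obtain ⟨u₀, hu₀, hmin⟩ := hcp.exists_isMinOn hne (ev_continuous Q).continuousOn
    have hu0 : u₀ ≠ 0 := by
      rintro rfl
      have : ∑ i : Fin n, ‖(0 : Fin n → ℂ) i‖ ^ 2 = 1 := hu₀
      simp at this
    have hm := hpos u₀ hu0
    refine ⟨max 1 (1 / ev Q u₀) + 1, fun u hu => ?_⟩
    by_contra hge
    rw [not_lt] at hge
    have h1 : 1 < nn u := by
      have := le_max_left 1 (1 / ev Q u₀)
      linarith
    have h2 : 1 / ev Q u₀ < nn u := by
      have := le_max_right 1 (1 / ev Q u₀)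
      linarith
    obtain ⟨w, hw, hzw⟩ := hscale u (by linarith)
    rw [hu] at hzw
    have h3 : ev Q u₀ ≤ ev Q w := hmin hw
    have h4 : nn u ≤ nn u ^ d := le_self_pow₀ h1.le (by omega)
    rw [div_lt_iff₀ hm] at h2
    have h5 : nn u * ev Q u₀ ≤ nn u ^ d * ev Q w :=
      mul_le_mul h4 h3 hm.le (by positivity)
    linarith

theorem homog_iff (Q : MvPolynomial (Fin n ⊕ Fin n) ℝ) {d : ℕ} (hd : 0 < d)
    (hQ : Q.IsHomogeneous (2 * d)) (hpos : ∀ z, z ≠ 0 → 0 < ev Q z) (c : Fin n → ℂ) :
    SumsOn {z | ev Q (z - c) = 1} ↔ ∃ h : QuadraticForm ℝ (Fin n → ℂ), h.PosDef ∧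
      (∀ z, h (Complex.I • z) = h z) ∧ ∀ z, ev Q z = h z ^ d := by
  have hd' : (d : ℝ) ≠ 0 := by exact_mod_cast hd.ne'
  constructor
  · intro hS
    obtain ⟨N, hN⟩ := hom_bound hd hQ hpos
    obtain ⟨G, hG⟩ := exists_nrm (fun i : Fin n => (X i - C (c i) : MvPolynomial (Fin n) ℂ))
    have hG' : ∀ z, ev G z = nn (z - c) := by
      intro z
      rw [hG, nrm, nn]
      simp
    obtain ⟨m, p, hp⟩ := hS (C N - G) (by
      intro z hz
      rw [ev_sub, ev_C, hG']
      have := hN _ hz
      linarith)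
    set q : Fin (m + n) → MvPolynomial (Fin n) ℂ :=
      Fin.append (fun j => aeval (fun i => X i + C (c i)) (p j))
        (fun i : Fin n => (X i : MvPolynomial (Fin n) ℂ)) with hq
    have htr : ∀ j u, eval u (aeval (fun i => X i + C (c i)) (p j) : MvPolynomial (Fin n) ℂ) =
        eval (u + c) (p j) := by
      intro j u
      induction (p j) using MvPolynomial.induction_on with
      | C a => simp
      | add p q hp hq => simp only [map_add, hp, hq]
      | mul_X p i hp => rw [map_mul, map_mul, hp, aeval_X, map_mul]; simp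
    have hR : Rel Q q N := by
      refine ⟨fun i => ⟨Fin.natAdd m i, by rw [hq, Fin.append_right]⟩, fun u hu => ?_⟩
      have h1 := hp (u + c) (by
        show ev Q (u + c - c) = 1
        rw [add_sub_cancel_right]
        exact hu)
      rw [ev_sub, ev_C, hG', add_sub_cancel_right] at h1
      unfold nrm at h1 ⊢
      rw [Fin.sum_univ_add]
      have h2 : ∀ j, ‖eval u (q (Fin.castAdd n j))‖ ^ 2 = ‖eval (u + c) (p j)‖ ^ 2 := by
        intro j
        rw [hq, Fin.append_left, htr]
      have h3 : ∀ i, ‖eval u (q (Fin.natAdd m i))‖ ^ 2 = ‖u i‖ ^ 2 := by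
        intro i
        rw [hq, Fin.append_right, eval_X]
      rw [Finset.sum_congr rfl fun j _ => h2 j, Finset.sum_congr rfl fun i _ => h3 i, ← h1]
      unfold nn
      ring
    obtain ⟨r, hr⟩ := rel_root hR hd hQ hpos
    have hr2 : ∀ z, ev (homogeneousComponent 2 r) z = ev r z := by
      intro z
      have h1 : ∀ t : ℝ, ev r ((t : ℂ) • z) = t ^ 2 * ev r z := by
        intro t
        have h3 : 0 ≤ ev Q z := by
          by_cases hz : z = 0
          · rw [hz]
            have h := ev_hom hQ 0 0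
            rw [smul_zero, zero_pow (by omega), zero_mul] at h
            rw [h]
          · exact (hpos z hz).le
        rw [hr, hr, ev_hom hQ, pow_mul, Real.mul_rpow (by positivity) h3, ← Real.rpow_natCast,
          ← Real.rpow_mul (by positivity), mul_one_div_cancel hd', Real.rpow_one]
      have h2 : ∀ t : ℝ, ev r ((t : ℂ) • z) = ∑ k ∈ Finset.range (r.totalDegree + 1),
          t ^ k * ev (homogeneousComponent k r) z := by
        intro t
        conv_lhs => rw [← sum_homogeneousComponent r]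
        rw [ev_sum]
        exact Finset.sum_congr rfl fun k _ => ev_hom (homogeneousComponent_isHomogeneous k r) t z
      have h3 : (∑ k ∈ Finset.range (r.totalDegree + 1),
          Polynomial.C (ev (homogeneousComponent k r) z) * Polynomial.X ^ k : Polynomial ℝ) =
          Polynomial.C (ev r z) * Polynomial.X ^ 2 := by
        refine Polynomial.funext fun t => ?_
        rw [Polynomial.eval_finsetSum, Polynomial.eval_mul, Polynomial.eval_C, Polynomial.eval_pow,
          Polynomial.eval_X, mul_comm, ← h1, h2]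
        refine Finset.sum_congr rfl fun k _ => ?_
        rw [Polynomial.eval_mul, Polynomial.eval_C, Polynomial.eval_pow, Polynomial.eval_X,
          mul_comm]
      have h4 := congrArg (fun P => Polynomial.coeff P 2) h3
      simp only [Polynomial.finsetSum_coeff, Polynomial.coeff_C_mul, Polynomial.coeff_X_pow] at h4
      simp only [if_true, mul_one, mul_ite, mul_zero] at h4
      rw [← h4, Finset.sum_ite_eq]
      split_ifs with h5
      · rfl
      · rw [homogeneousComponent_eq_zero, ev_zero]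
        rw [Finset.mem_range] at h5
        omega
    obtain ⟨h, hh⟩ := exists_quad _ (homogeneousComponent_isHomogeneous 2 r)
    have hh' : ∀ z, h z = (ev Q z) ^ (1 / (d : ℝ)) := fun z => by rw [hh, hr2, hr]
    refine ⟨h, fun z hz => ?_, fun z => ?_, fun z => ?_⟩
    · rw [hh']
      exact Real.rpow_pos_of_pos (hpos z hz) _
    · rw [hh', hh', rel_const hR hd hQ hpos z Complex.I Complex.norm_I]
    · have h3 : 0 ≤ ev Q z := by
        by_cases hz : z = 0
        · rw [hz]
          have h := ev_hom hQ 0 0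
          rw [smul_zero, zero_pow (by omega), zero_mul] at h
          rw [h]
        · exact (hpos z hz).le
      rw [hh', ← Real.rpow_natCast, ← Real.rpow_mul h3, one_div, inv_mul_cancel₀ hd',
        Real.rpow_one]
  · rintro ⟨h, hpd, hI, hh⟩
    have h1 := ell_if h hpd c hI
    have h2 : {z | ev Q (z - c) = 1} = {z | h (z - c) = 1} := by
      ext z
      show ev Q (z - c) = 1 ↔ h (z - c) = 1
      rw [hh]
      exact pow_eq_one_iff_of_nonneg (QuadraticMap.PosDef.nonneg hpd _) hd.ne'
    rw [h2]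
    exact h1

end Pool.Agent.Work.MP_49847a_an
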