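import Mathlib

/-!
# Laurent polynomials on the unit circle
-/

namespace Pool.Agent.Work.MP_49847a_an

/-- the unit circle -/
abbrev S1 := {ζ : ℂ // ‖ζ‖ = 1}

theorem S1_mul_conj (ζ : S1) : (ζ : ℂ) * (starRingEnd ℂ) (ζ : ℂ) = 1 := by
  rw [Complex.mul_conj', ζ.2]
  norm_num

theorem S1_ne (ζ : S1) : (ζ : ℂ) ≠ 0 := by
  intro h
  have := ζ.2
  rw [h] at this
  simp at this

theorem S1_infinite : (Set.range (fun ζ : S1 => (ζ : ℂ))).Infinite := by
  have h : Function.Injective (fun t : Set.Icc (-1 : ℝ) 1 =>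
      ((t : ℝ) : ℂ) + (Real.sqrt (1 - (t : ℝ) ^ 2) : ℂ) * Complex.I) := by
    intro s t hst
    have := congrArg Complex.re hst
    simp at this
    exact Subtype.ext this
  have h2 : (Set.range (fun t : Set.Icc (-1 : ℝ) 1 =>
      ((t : ℝ) : ℂ) + (Real.sqrt (1 - (t : ℝ) ^ 2) : ℂ) * Complex.I)).Infinite := by
    have : Infinite (Set.Icc (-1 : ℝ) 1) := (Set.Icc_infinite (by norm_num)).to_subtype
    exact Set.infinite_range_of_injective h
  refine h2.mono ?_
  rintro _ ⟨t, rfl⟩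
  refine ⟨⟨_, ?_⟩, rfl⟩
  have h1 : (0 : ℝ) ≤ 1 - (t : ℝ) ^ 2 := by nlinarith [t.2.1, t.2.2]
  have h3 : ‖((t : ℝ) : ℂ) + (Real.sqrt (1 - (t : ℝ) ^ 2) : ℂ) * Complex.I‖ ^ 2 = 1 := by
    rw [← Complex.normSq_eq_norm_sq, Complex.normSq_add_mul_I, Real.sq_sqrt h1]
    ring
  nlinarith [norm_nonneg (((t : ℝ) : ℂ) + (Real.sqrt (1 - (t : ℝ) ^ 2) : ℂ) * Complex.I)]

/-- Laurent polynomials on the unit circle -/
noncomputable def LB : Subalgebra ℂ (S1 → ℂ) where
  carrier := {b | ∃ (S : Polynomial ℂ) (L : ℕ), ∀ ζ : S1, (ζ : ℂ) ^ L * b ζ = S.eval (ζ : ℂ)}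
  mul_mem' := by
    rintro a b ⟨S, L, h⟩ ⟨S', L', h'⟩
    refine ⟨S * S', L + L', fun ζ => ?_⟩
    rw [Polynomial.eval_mul, ← h, ← h', Pi.mul_apply]
    ring
  add_mem' := by
    rintro a b ⟨S, L, h⟩ ⟨S', L', h'⟩
    refine ⟨Polynomial.X ^ L' * S + Polynomial.X ^ L * S', L + L', fun ζ => ?_⟩
    rw [Polynomial.eval_add, Polynomial.eval_mul, Polynomial.eval_mul, ← h, ← h',
      Polynomial.eval_pow, Polynomial.eval_pow, Polynomial.eval_X, Pi.add_apply]
    ring
  algebraMap_mem' := fun c => ⟨Polynomial.C c, 0, fun ζ => by simp⟩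

theorem mem_LB {b : S1 → ℂ} :
    b ∈ LB ↔ ∃ (S : Polynomial ℂ) (L : ℕ), ∀ ζ : S1, (ζ : ℂ) ^ L * b ζ = S.eval (ζ : ℂ) := Iff.rfl

/-- the coordinate -/
noncomputable def zLB : LB := ⟨fun ζ => (ζ : ℂ), mem_LB.mpr ⟨Polynomial.X, 0, fun ζ => by simp⟩⟩

/-- the conjugate coordinate -/
noncomputable def wLB : LB := ⟨fun ζ => (starRingEnd ℂ) (ζ : ℂ),
  mem_LB.mpr ⟨1, 1, fun ζ => by rw [pow_one, S1_mul_conj]; simp⟩⟩

theorem zw_LB : zLB * wLB = 1 := by
  apply Subtype.ext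
  funext ζ
  exact S1_mul_conj ζ

theorem inv_mem {A : Type*} [CommRing A] [Algebra ℂ A] (B : Subalgebra ℂ A) {x g : A}
    (hg : g ∈ B) (hxg : x * g = 1) (hx : IsIntegral B x) : x ∈ B := by
  obtain ⟨p, hp, h0⟩ := hx
  rw [Polynomial.eval₂_eq_sum_range] at h0
  rcases Nat.eq_zero_or_pos p.natDegree with hk | hk
  · rw [hk] at h0
    have h1 : p.coeff 0 = 1 := by
      rw [← hk]
      exact hp
    simp [h1] at h0
    have : x = x * 1 := (mul_one x).symm
    rw [this, h0, mul_zero]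
    exact B.zero_mem
  · obtain ⟨k, hk'⟩ : ∃ k, p.natDegree = k + 1 := ⟨p.natDegree - 1, by omega⟩
    rw [hk', Finset.sum_range_succ] at h0
    have h1 : p.coeff (k + 1) = 1 := by
      rw [← hk']
      exact hp
    rw [h1, map_one, one_mul] at h0
    have h2 := congrArg (fun y => y * g ^ k) h0
    simp only [zero_mul, add_mul, Finset.sum_mul] at h2
    have h3 : x ^ (k + 1) * g ^ k = x := by
      rw [pow_succ', mul_assoc, ← mul_pow, hxg, one_pow, mul_one]
    rw [h3] at h2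
    have h4 : ∀ i ∈ Finset.range (k + 1),
        algebraMap B A (p.coeff i) * x ^ i * g ^ k = ((p.coeff i : B) : A) * g ^ (k - i) := by
      intro i hi
      have hik : i ≤ k := Nat.lt_succ_iff.mp (Finset.mem_range.mp hi)
      have h5 : g ^ k = g ^ i * g ^ (k - i) := by
        rw [← pow_add]
        congr 1
        omega
      rw [h5, mul_assoc, ← mul_assoc (x ^ i), ← mul_pow, hxg, one_pow, one_mul]
      rfl
    rw [Finset.sum_congr rfl h4] at h2
    have h6 : x = -∑ i ∈ Finset.range (k + 1), ((p.coeff i : B) : A) * g ^ (k - i) := by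
      linear_combination h2
    rw [h6]
    exact B.neg_mem (B.sum_mem fun i _ => B.mul_mem (p.coeff i).2 (B.pow_mem hg _))

theorem circ_const (g s : S1 → ℂ) (hg : g ∈ LB) (k : ℕ) (hs : ∀ ζ, s ζ ^ k * g ζ = 1)
    (hint : IsIntegral LB s) : ∃ c : ℝ, ∀ ζ, ‖g ζ‖ = c := by
  have h1 : s ^ k ∈ LB := inv_mem LB hg (by
    funext ζ
    exact hs ζ) (hint.pow k)
  obtain ⟨P, L, hP⟩ := hg
  obtain ⟨S, L', hS⟩ := h1
  have h2 : P * S = Polynomial.X ^ (L + L') := by
    refine Polynomial.eq_of_infinite_eval_eq _ _ (S1_infinite.mono ?_)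
    rintro _ ⟨ζ, rfl⟩
    show (P * S).eval (ζ : ℂ) = (Polynomial.X ^ (L + L')).eval (ζ : ℂ)
    rw [Polynomial.eval_mul, ← hP, ← hS, Polynomial.eval_pow, Polynomial.eval_X]
    have := hs ζ
    calc (ζ : ℂ) ^ L * g ζ * ((ζ : ℂ) ^ L' * (s ^ k) ζ) =
        (ζ : ℂ) ^ L * (ζ : ℂ) ^ L' * (s ζ ^ k * g ζ) := by
          rw [Pi.pow_apply]
          ring
      _ = (ζ : ℂ) ^ (L + L') := by rw [this, mul_one, pow_add]
  have h3 : P ∣ Polynomial.X ^ (L + L') := ⟨S, h2.symm⟩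
  rw [dvd_prime_pow Polynomial.prime_X] at h3
  obtain ⟨i, _, hi⟩ := h3
  obtain ⟨u, hu⟩ := hi.symm
  obtain ⟨a, ha, hua⟩ := Polynomial.isUnit_iff.mp u.isUnit
  refine ⟨‖a‖, fun ζ => ?_⟩
  have h4 : ‖(ζ : ℂ) ^ L * g ζ‖ = ‖g ζ‖ := by
    rw [norm_mul, norm_pow, ζ.2, one_pow, one_mul]
  rw [← h4, hP, ← hu, ← hua, Polynomial.eval_mul, Polynomial.eval_pow, Polynomial.eval_X,
    Polynomial.eval_C, norm_mul, norm_pow, ζ.2, one_pow, one_mul]

theorem circ_integral {m : ℕ} (P : Fin m → Polynomial ℂ) (N : ℂ)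
    (hP : ∃ j, 1 ≤ (P j).natDegree) (s : S1 → ℂ)
    (h : ∀ ζ : S1, N = ∑ j, (P j).eval (s ζ * ζ) *
      ((P j).map (starRingEnd ℂ)).eval (s ζ * (starRingEnd ℂ) (ζ : ℂ))) : IsIntegral LB s := by
  set e := Finset.univ.sup (fun j => (P j).natDegree) with he
  obtain ⟨j₁, hj₁⟩ := hP
  have hle : ∀ j, (P j).natDegree ≤ e := fun j =>
    Finset.le_sup (f := fun j => (P j).natDegree) (Finset.mem_univ j)
  obtain ⟨j₀, _, hj₀⟩ := Finset.exists_mem_eq_sup Finset.univ ⟨j₁, Finset.mem_univ _⟩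
    (fun j => (P j).natDegree)
  rw [← he] at hj₀
  have he1 : 1 ≤ e := hj₁.trans (hle j₁)
  set A : Fin m → Polynomial LB := fun j =>
    ((P j).map (algebraMap ℂ LB)).comp (Polynomial.C zLB * Polynomial.X) with hA
  set B : Fin m → Polynomial LB := fun j =>
    (((P j).map (starRingEnd ℂ)).map (algebraMap ℂ LB)).comp (Polynomial.C wLB * Polynomial.X)
    with hB
  have hAd : ∀ j, (A j).natDegree ≤ e := by
    intro j
    refine (Polynomial.natDegree_comp_le).trans ?_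
    refine (Nat.mul_le_mul ((Polynomial.natDegree_map_le).trans (hle j))
      ((Polynomial.natDegree_C_mul_le _ _).trans Polynomial.natDegree_X_le)).trans ?_
    rw [mul_one]
  have hBd : ∀ j, (B j).natDegree ≤ e := by
    intro j
    refine (Polynomial.natDegree_comp_le).trans ?_
    refine (Nat.mul_le_mul ((Polynomial.natDegree_map_le).trans
      ((Polynomial.natDegree_map_le).trans (hle j)))
      ((Polynomial.natDegree_C_mul_le _ _).trans Polynomial.natDegree_X_le)).trans ?_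
    rw [mul_one]
  set c : ℝ := ∑ j, ‖(P j).coeff e‖ ^ 2 with hc
  have hc0 : 0 < c := by
    refine Finset.sum_pos' (fun _ _ => by positivity) ⟨j₀, Finset.mem_univ _, ?_⟩
    have : (P j₀).coeff e ≠ 0 := by
      rw [hj₀]
      intro h0
      have h1 : (P j₀).leadingCoeff = 0 := h0
      rw [Polynomial.leadingCoeff_eq_zero] at h1
      rw [h1] at hj₀
      simp at hj₀
      omega
    positivity
  set Pi0 : Polynomial LB := ∑ j, A j * B j - Polynomial.C (algebraMap ℂ LB N) with hPi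
  have hdeg : Pi0.natDegree ≤ e + e := by
    refine (Polynomial.natDegree_sub_le _ _).trans (max_le ?_ (by simp))
    refine Polynomial.natDegree_sum_le_of_forall_le _ _ fun j _ => ?_
    exact (Polynomial.natDegree_mul_le).trans (add_le_add (hAd j) (hBd j))
  have hcoef : Pi0.coeff (e + e) = algebraMap ℂ LB (c : ℂ) := by
    rw [hPi, Polynomial.coeff_sub, Polynomial.finsetSum_coeff, Polynomial.coeff_C,
      if_neg (by omega), sub_zero, hc, Complex.ofReal_sum, map_sum]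
    refine Finset.sum_congr rfl fun j _ => ?_
    rw [Polynomial.coeff_mul_add_eq_of_natDegree_le (hAd j) (hBd j)]
    rw [hA, hB, Polynomial.comp_C_mul_X_coeff, Polynomial.comp_C_mul_X_coeff, Polynomial.coeff_map,
      Polynomial.coeff_map, Polynomial.coeff_map]
    have h1 : algebraMap ℂ LB ((P j).coeff e) * zLB ^ e *
        (algebraMap ℂ LB ((starRingEnd ℂ) ((P j).coeff e)) * wLB ^ e) =
        algebraMap ℂ LB ((P j).coeff e * (starRingEnd ℂ) ((P j).coeff e)) * (zLB * wLB) ^ e := by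
      rw [map_mul]
      ring
    rw [h1, zw_LB, one_pow, mul_one, Complex.mul_conj', Complex.ofReal_pow]
  refine ⟨Polynomial.C (algebraMap ℂ LB ((c : ℂ)⁻¹)) * Pi0, ?_, ?_⟩
  · refine Polynomial.monic_of_natDegree_le_of_coeff_eq_one (e + e) ?_ ?_
    · exact (Polynomial.natDegree_C_mul_le _ _).trans hdeg
    · rw [Polynomial.coeff_C_mul, hcoef, ← map_mul, inv_mul_cancel₀, map_one]
      exact_mod_cast hc0.ne'
  · rw [Polynomial.eval₂_mul]
    have h2 : Polynomial.eval₂ (algebraMap LB (S1 → ℂ)) s Pi0 = 0 := by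
      funext ζ
      have h3 := Polynomial.hom_eval₂ Pi0 (algebraMap LB (S1 → ℂ)) (Pi.evalRingHom (fun _ => ℂ) ζ) s
      have h4 : (Pi.evalRingHom (fun _ => ℂ) ζ) (Polynomial.eval₂ (algebraMap LB (S1 → ℂ)) s Pi0) =
        Polynomial.eval₂ (algebraMap LB (S1 → ℂ)) s Pi0 ζ := rfl
      rw [← h4, h3]
      set φ := (Pi.evalRingHom (fun _ : S1 => ℂ) ζ).comp (algebraMap LB (S1 → ℂ)) with hφ
      have hφc : ∀ c : ℂ, φ (algebraMap ℂ LB c) = c := fun c => rfl
      have hφc' : φ.comp (algebraMap ℂ LB) = RingHom.id ℂ := by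
        ext c
        exact hφc c
      have hφz : φ zLB = ζ := rfl
      have hφw : φ wLB = (starRingEnd ℂ) (ζ : ℂ) := rfl
      have hsz : (Pi.evalRingHom (fun _ : S1 => ℂ) ζ) s = s ζ := rfl
      rw [hsz, hPi, Polynomial.eval₂_sub, Polynomial.eval₂_finsetSum, Polynomial.eval₂_C, hφc]
      rw [Pi.zero_apply, sub_eq_zero]
      refine Eq.trans ?_ (h ζ).symm
      refine Finset.sum_congr rfl fun j _ => ?_
      rw [Polynomial.eval₂_mul, hA, hB, Polynomial.eval₂_comp, Polynomial.eval₂_comp,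
        Polynomial.eval₂_map, Polynomial.eval₂_map, hφc', Polynomial.eval₂_mul,
        Polynomial.eval₂_mul, Polynomial.eval₂_C, Polynomial.eval₂_C, Polynomial.eval₂_X, hφz, hφw,
        Polynomial.eval₂_id, Polynomial.eval₂_id, mul_comm (s ζ), mul_comm (s ζ)]
    rw [h2, mul_zero]

end Pool.Agent.Work.MP_49847a_an
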