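import Mathlib

/-!
# A root of a polynomial which satisfies a relation with nonnegative coefficients is a polynomial
-/

namespace Pool.Agent.Work.MP_49847a_an

open MvPolynomial

variable {σ : Type*}

theorem mv_zero_of_ne [Nonempty σ] (g : MvPolynomial σ ℝ) (h : ∀ x : σ → ℝ, x ≠ 0 → eval x g = 0) :
    g = 0 := by
  obtain ⟨i⟩ := ‹Nonempty σ›
  have h1 : g * X i = 0 := by
    refine MvPolynomial.funext fun x => ?_
    rw [map_mul, eval_X, map_zero]
    by_cases hx : x = 0
    · rw [hx]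
      simp
    · rw [h x hx, zero_mul]
  rcases mul_eq_zero.mp h1 with h2 | h2
  · exact h2
  · exact absurd h2 (X_ne_zero i)

theorem mv_exists_ne [Nonempty σ] (g : MvPolynomial σ ℝ) (hg : g ≠ 0) :
    ∃ x : σ → ℝ, x ≠ 0 ∧ eval x g ≠ 0 := by
  by_contra h
  push Not at h
  exact hg (mv_zero_of_ne g h)

/-- arbitrarily close to every point there are points where a nonzero polynomial does not vanish -/
theorem mv_near [Nonempty σ] (g r : MvPolynomial σ ℝ) (hg : g ≠ 0) (x : σ → ℝ)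
    (hx : eval x r < 0) : ∃ y : σ → ℝ, y ≠ 0 ∧ eval y g ≠ 0 ∧ eval y r < 0 := by
  obtain ⟨i⟩ := ‹Nonempty σ›
  have hg' : g * X i ≠ 0 := mul_ne_zero hg (X_ne_zero i)
  obtain ⟨w, hw⟩ : ∃ w : σ → ℝ, eval w (g * X i) ≠ 0 := by
    by_contra h
    push Not at h
    exact hg' (MvPolynomial.funext fun x => by rw [h x, map_zero])
  set L : ∀ p : MvPolynomial σ ℝ, Polynomial ℝ := fun p =>
    aeval (fun j => Polynomial.C (x j) + Polynomial.X * Polynomial.C (w j - x j)) p with hL
  have hLe : ∀ (p : MvPolynomial σ ℝ) (t : ℝ), (L p).eval t = eval (fun j => x j + t * (w j - x j)) p := by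
    intro p t
    simp only [hL]
    induction p using MvPolynomial.induction_on with
    | C a => simp
    | add p q hp hq => simp only [map_add, Polynomial.eval_add, hp, hq]
    | mul_X p i hp =>
      rw [map_mul, aeval_X, Polynomial.eval_mul, hp, map_mul, eval_X]
      simp
  have hL0 : L (g * X i) ≠ 0 := by
    intro h0
    apply hw
    have h1 := hLe (g * X i) 1
    rw [h0] at h1
    simp only [Polynomial.eval_zero, one_mul, add_sub_cancel] at h1
    exact h1.symm
  have hfin : {t : ℝ | (L (g * X i)).IsRoot t}.Finite := Polynomial.finite_setOfPred_isRoot hL0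
  have hcont : Continuous (fun t : ℝ => (L r).eval t) := (L r).continuous
  have hneg : {t : ℝ | (L r).eval t < 0} ∈ nhds (0 : ℝ) := by
    refine (isOpen_lt hcont continuous_const).mem_nhds ?_
    show (L r).eval 0 < 0
    rw [hLe]
    simpa using hx
  obtain ⟨δ, hδ, hδ'⟩ := Metric.mem_nhds_iff.mp hneg
  have hinf : (Set.Ioo (0 : ℝ) δ).Infinite := Set.Ioo_infinite hδ
  obtain ⟨t, ht, ht'⟩ := (hinf.sdiff hfin).nonempty
  have h2 : (L r).eval t < 0 := hδ' (by
    rw [Metric.mem_ball, dist_zero_right, Real.norm_eq_abs, abs_of_pos ht.1]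
    exact ht.2)
  have h3 : (L (g * X i)).eval t ≠ 0 := ht'
  rw [hLe] at h2 h3
  refine ⟨fun j => x j + t * (w j - x j), ?_, ?_, h2⟩
  · intro h0
    apply h3
    rw [h0]
    simp
  · intro h0
    apply h3
    rw [map_mul, h0, zero_mul]

theorem root_unique {e : ℕ} (he : 1 ≤ e) (W : ℕ → ℝ) (N ρ : ℝ) (hρ : 0 < ρ) (hW : ∀ k, 0 ≤ W k)
    (hW1 : 0 < W 1) (hrel : N * ρ ^ e = ∑ k ∈ Finset.range (e + 1), ρ ^ (e - k) * W k)
    (τ : ℂ) (hτ : ‖τ‖ = ρ) (hτr : (N : ℂ) * τ ^ e = ∑ k ∈ Finset.range (e + 1), τ ^ (e - k) * (W k : ℂ)) :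
    τ = ρ := by
  have hτ0 : τ ≠ 0 := by
    rintro rfl
    simp at hτ
    linarith
  have h1 : (N : ℝ) = ∑ k ∈ Finset.range (e + 1), (ρ⁻¹) ^ k * W k := by
    have h2 : N = (N * ρ ^ e) * (ρ⁻¹) ^ e := by
      rw [mul_assoc, ← mul_pow, mul_inv_cancel₀ hρ.ne', one_pow, mul_one]
    rw [h2, hrel, Finset.sum_mul]
    refine Finset.sum_congr rfl fun k hk => ?_
    have hk' : k ≤ e := Nat.lt_succ_iff.mp (Finset.mem_range.mp hk)
    have h3 : (ρ⁻¹) ^ e = (ρ⁻¹) ^ (e - k) * (ρ⁻¹) ^ k := by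
      rw [← pow_add]
      congr 1
      omega
    have h4 : ρ ^ (e - k) * (ρ⁻¹) ^ (e - k) = 1 := by
      rw [← mul_pow, mul_inv_cancel₀ hρ.ne', one_pow]
    rw [h3]
    linear_combination (W k * ρ⁻¹ ^ k) * h4
  have h2 : (N : ℂ) = ∑ k ∈ Finset.range (e + 1), (τ⁻¹) ^ k * (W k : ℂ) := by
    have h2 : (N : ℂ) = (N * τ ^ e) * (τ⁻¹) ^ e := by
      rw [mul_assoc, ← mul_pow, mul_inv_cancel₀ hτ0, one_pow, mul_one]
    rw [h2, hτr, Finset.sum_mul]
    refine Finset.sum_congr rfl fun k hk => ?_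
    have hk' : k ≤ e := Nat.lt_succ_iff.mp (Finset.mem_range.mp hk)
    have h3 : (τ⁻¹) ^ e = (τ⁻¹) ^ (e - k) * (τ⁻¹) ^ k := by
      rw [← pow_add]
      congr 1
      omega
    have h4 : τ ^ (e - k) * (τ⁻¹) ^ (e - k) = 1 := by
      rw [← mul_pow, mul_inv_cancel₀ hτ0, one_pow]
    rw [h3]
    linear_combination (W k * τ⁻¹ ^ k) * h4
  have h3 : N = ∑ k ∈ Finset.range (e + 1), ((τ⁻¹) ^ k).re * W k := by
    have h4 := congrArg Complex.re h2
    rw [Complex.ofReal_re, Complex.re_sum] at h4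
    rw [h4]
    refine Finset.sum_congr rfl fun k _ => ?_
    rw [Complex.re_mul_ofReal]
  have h5 : ∑ k ∈ Finset.range (e + 1), ((ρ⁻¹) ^ k - ((τ⁻¹) ^ k).re) * W k = 0 := by
    have h6 : ∑ k ∈ Finset.range (e + 1), ((ρ⁻¹) ^ k - ((τ⁻¹) ^ k).re) * W k =
        (∑ k ∈ Finset.range (e + 1), (ρ⁻¹) ^ k * W k) -
        ∑ k ∈ Finset.range (e + 1), ((τ⁻¹) ^ k).re * W k := by
      rw [← Finset.sum_sub_distrib]
      exact Finset.sum_congr rfl fun k _ => by ring
    rw [h6, ← h1, ← h3, sub_self]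
  have h6 : ∀ k ∈ Finset.range (e + 1), 0 ≤ ((ρ⁻¹) ^ k - ((τ⁻¹) ^ k).re) * W k := by
    intro k _
    refine mul_nonneg ?_ (hW k)
    rw [sub_nonneg]
    refine (Complex.re_le_norm _).trans (le_of_eq ?_)
    rw [norm_pow, norm_inv, hτ]
  have h7 := (Finset.sum_eq_zero_iff_of_nonneg h6).mp h5 1 (Finset.mem_range.mpr (by omega))
  rw [pow_one, pow_one] at h7
  have h8 : (τ⁻¹).re = ρ⁻¹ := by
    rcases mul_eq_zero.mp h7 with h | h
    · linarith
    · exact absurd h hW1.ne'
  have h9 : ‖τ⁻¹‖ = (τ⁻¹).re := by rw [norm_inv, hτ, h8]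
  have h10 : τ⁻¹ = ((τ⁻¹).re : ℂ) := by
    have h11 : Complex.normSq τ⁻¹ = (τ⁻¹).re ^ 2 := by
      rw [← h9, Complex.normSq_eq_norm_sq]
    rw [Complex.normSq_apply] at h11
    have h12 : (τ⁻¹).im = 0 := by
      have : (τ⁻¹).im * (τ⁻¹).im = 0 := by linarith
      exact mul_self_eq_zero.mp this
    exact Complex.ext (by simp) (by simp [h12])
  rw [h8] at h10
  have h13 : τ = (τ⁻¹)⁻¹ := (inv_inv τ).symm
  rw [h13, h10, Complex.ofReal_inv, inv_inv]

theorem root_poly (ρ : (σ → ℝ) → ℝ) (Q : MvPolynomial σ ℝ) (d e : ℕ) (hd : 1 ≤ d) (he : 1 ≤ e)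
    (hρ0 : ∀ x, 0 ≤ ρ x) (hρ1 : ∀ x, x ≠ 0 → 0 < ρ x) (hρd : ∀ x, ρ x ^ d = eval x Q)
    (W : ℕ → MvPolynomial σ ℝ) (hW : ∀ k x, 0 ≤ eval x (W k)) (hW1 : ∀ x, x ≠ 0 → 0 < eval x (W 1))
    (N : ℝ) (hrel : ∀ x, x ≠ 0 →
      N * ρ x ^ e = ∑ k ∈ Finset.range (e + 1), ρ x ^ (e - k) * eval x (W k)) :
    ∃ r : MvPolynomial σ ℝ, ∀ x, eval x r = ρ x := by
  classical
  rcases isEmpty_or_nonempty σ with hσ | hσ
  · refine ⟨C (ρ 0), fun x => ?_⟩
    rw [eval_C]
    congr 1
    exact Subsingleton.elim _ _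
  set I : Polynomial (MvPolynomial σ ℝ) → Prop := fun P => ∀ x, x ≠ 0 →
    Polynomial.eval₂ (eval x) (ρ x) P = 0 with hI
  set P1 : Polynomial (MvPolynomial σ ℝ) := (∑ k ∈ Finset.range (e + 1),
    Polynomial.C (W k) * Polynomial.X ^ (e - k)) - Polynomial.C (C N) * Polynomial.X ^ e with hP1
  set P2 : Polynomial (MvPolynomial σ ℝ) := Polynomial.X ^ d - Polynomial.C Q with hP2
  have hP1I : I P1 := by
    intro x hx
    rw [hP1, Polynomial.eval₂_sub, Polynomial.eval₂_finsetSum, Polynomial.eval₂_mul,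
      Polynomial.eval₂_C, Polynomial.eval₂_pow, Polynomial.eval₂_X, eval_C, hrel x hx, sub_eq_zero]
    refine Finset.sum_congr rfl fun k _ => ?_
    rw [Polynomial.eval₂_mul, Polynomial.eval₂_C, Polynomial.eval₂_pow, Polynomial.eval₂_X, mul_comm]
  have hP2I : I P2 := by
    intro x _
    rw [hP2, Polynomial.eval₂_sub, Polynomial.eval₂_pow, Polynomial.eval₂_X, Polynomial.eval₂_C,
      hρd, sub_self]
  have hP20 : P2 ≠ 0 := Polynomial.X_pow_sub_C_ne_zero hd Q
  obtain ⟨G, ⟨hG0, hGI⟩, hGmin⟩ : ∃ G, (G ≠ 0 ∧ I G) ∧ ∀ P, P ≠ 0 → I P →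
      G.natDegree ≤ P.natDegree := by
    have hex : ∃ k, ∃ P, (P ≠ 0 ∧ I P) ∧ P.natDegree = k := ⟨_, P2, ⟨hP20, hP2I⟩, rfl⟩
    obtain ⟨G, hG, hGk⟩ := Nat.find_spec hex
    refine ⟨G, hG, fun P hP hPI => ?_⟩
    rw [hGk]
    exact Nat.find_min' hex ⟨P, ⟨hP, hPI⟩, rfl⟩
  set ℓ := G.leadingCoeff with hℓ
  have hℓ0 : ℓ ≠ 0 := Polynomial.leadingCoeff_ne_zero.mpr hG0
  have hdiv : ∀ n, ∀ P, P.natDegree ≤ n → I P → ∃ a, a ≠ 0 ∧ ∃ S, Polynomial.C a * P = G * S := by
    intro n
    induction n with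
    | zero =>
      intro P hPn hPI
      by_cases hP0 : P = 0
      · exact ⟨1, one_ne_zero, 0, by rw [hP0, mul_zero, mul_zero]⟩
      · have h1 := hGmin P hP0 hPI
        have h2 : P.natDegree = 0 := by omega
        have h3 : G.natDegree = 0 := by omega
        refine ⟨ℓ, hℓ0, P, ?_⟩
        have h4 : G = Polynomial.C ℓ := by
          rw [hℓ, Polynomial.leadingCoeff, h3]
          exact Polynomial.eq_C_of_natDegree_eq_zero h3
        rw [← h4]
    | succ n ih =>
      intro P hPn hPI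
      by_cases hP0 : P = 0
      · exact ⟨1, one_ne_zero, 0, by rw [hP0, mul_zero, mul_zero]⟩
      have h1 := hGmin P hP0 hPI
      by_cases hlt : P.natDegree ≤ n
      · exact ih P hlt hPI
      have hPn' : P.natDegree = n + 1 := by omega
      set T : Polynomial (MvPolynomial σ ℝ) := Polynomial.C P.leadingCoeff *
        Polynomial.X ^ (P.natDegree - G.natDegree) with hT
      set P' := Polynomial.C ℓ * P - G * T with hP'
      have hp0 : P.leadingCoeff ≠ 0 := Polynomial.leadingCoeff_ne_zero.mpr hP0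
      have hP'I : I P' := by
        intro x hx
        rw [hP', Polynomial.eval₂_sub, Polynomial.eval₂_mul, Polynomial.eval₂_mul, hPI x hx,
          hGI x hx, mul_zero, zero_mul, sub_zero]
      have hlt' : P'.natDegree ≤ n := by
        have hT0 : T ≠ 0 := by
          rw [hT]
          exact mul_ne_zero (Polynomial.C_ne_zero.mpr hp0) (pow_ne_zero _ Polynomial.X_ne_zero)
        have hTd : T.natDegree = P.natDegree - G.natDegree := by
          rw [hT, Polynomial.natDegree_C_mul_X_pow _ _ hp0]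
        have hd1 : (Polynomial.C ℓ * P).natDegree = P.natDegree :=
          Polynomial.natDegree_C_mul hℓ0
        have hd2 : (G * T).natDegree = P.natDegree := by
          rw [Polynomial.natDegree_mul hG0 hT0, hTd]
          omega
        have hdd : (Polynomial.C ℓ * P).degree = (G * T).degree := by
          rw [Polynomial.degree_eq_natDegree (mul_ne_zero (Polynomial.C_ne_zero.mpr hℓ0) hP0),
            Polynomial.degree_eq_natDegree (mul_ne_zero hG0 hT0), hd1, hd2]
        have hlc : (Polynomial.C ℓ * P).leadingCoeff = (G * T).leadingCoeff := by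
          rw [Polynomial.leadingCoeff_mul, Polynomial.leadingCoeff_mul, Polynomial.leadingCoeff_C, hT,
            Polynomial.leadingCoeff_mul, Polynomial.leadingCoeff_C, Polynomial.leadingCoeff_X_pow,
            mul_one]
        have hlt2 := Polynomial.degree_sub_lt_left hdd
          (mul_ne_zero (Polynomial.C_ne_zero.mpr hℓ0) hP0) hlc
        by_cases hP'0 : P' = 0
        · rw [hP'0]
          simp
        · have h5 := Polynomial.natDegree_lt_natDegree hP'0 hlt2
          omega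
      obtain ⟨a, ha, S, hS⟩ := ih P' hlt' hP'I
      refine ⟨a * ℓ, mul_ne_zero ha hℓ0, S + Polynomial.C a * T, ?_⟩
      rw [mul_add, ← hS, hP', Polynomial.C_mul]
      ring
  obtain ⟨a1, ha1, S1, hS1⟩ := hdiv _ P1 le_rfl hP1I
  obtain ⟨a2, ha2, S2, hS2⟩ := hdiv _ P2 le_rfl hP2I
  have hdeg0 : G.natDegree ≠ 0 := by
    intro h0
    have h1 := Polynomial.eq_C_of_natDegree_eq_zero h0
    have h2 : G.coeff 0 = 0 := mv_zero_of_ne _ fun x hx => by
      have := hGI x hx
      rw [h1, Polynomial.eval₂_C] at this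
      exact this
    rw [h2, Polynomial.C_0] at h1
    exact hG0 h1
  have hdeg1 : G.natDegree ≤ 1 := by
    by_contra hge
    rw [not_le] at hge
    obtain ⟨x, hx, hxe⟩ := mv_exists_ne (ℓ * a1 * a2) (mul_ne_zero (mul_ne_zero hℓ0 ha1) ha2)
    rw [map_mul, map_mul] at hxe
    have hxℓ : eval x ℓ ≠ 0 := fun h => hxe (by rw [h]; ring)
    have hxa1 : eval x a1 ≠ 0 := fun h => hxe (by rw [h]; ring)
    have hxa2 : eval x a2 ≠ 0 := fun h => hxe (by rw [h]; ring)
    have hρx := hρ1 x hx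
    set Gx := G.map (eval x) with hGx
    have hGxd : Gx.natDegree = G.natDegree :=
      Polynomial.natDegree_map_of_leadingCoeff_ne_zero _ hxℓ
    have hroot : Gx.IsRoot (ρ x) := by
      rw [Polynomial.IsRoot, hGx, Polynomial.eval_map]
      exact hGI x hx
    obtain ⟨T, hT⟩ := Polynomial.dvd_iff_isRoot.mpr hroot
    have hGx0 : Gx ≠ 0 := by
      intro h0
      rw [h0] at hGxd
      simp at hGxd
      omega
    have hT0 : T ≠ 0 := by
      rintro rfl
      rw [mul_zero] at hT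
      exact hGx0 hT
    have hTd : 1 ≤ T.natDegree := by
      have h1 : Gx.natDegree = 1 + T.natDegree := by
        rw [hT, Polynomial.natDegree_mul (Polynomial.X_sub_C_ne_zero _) hT0,
          Polynomial.natDegree_X_sub_C]
      omega
    obtain ⟨τ, hτ⟩ := Complex.exists_root (f := T.map (algebraMap ℝ ℂ)) (by
      rw [Polynomial.degree_map]
      rw [Polynomial.degree_eq_natDegree hT0]
      exact_mod_cast hTd)
    have hGτ : (Gx.map (algebraMap ℝ ℂ)).eval τ = 0 := by
      rw [hT, Polynomial.map_mul, Polynomial.eval_mul, hτ, mul_zero]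
    have hspec : ∀ (a : MvPolynomial σ ℝ) (P S : Polynomial (MvPolynomial σ ℝ)),
        Polynomial.C a * P = G * S → eval x a ≠ 0 →
        ((P.map (eval x)).map (algebraMap ℝ ℂ)).eval τ = 0 := by
      intro a P S h ha
      have h1 := congrArg (fun R => ((R.map (eval x)).map (algebraMap ℝ ℂ)).eval τ) h
      simp only [Polynomial.map_mul, Polynomial.eval_mul, Polynomial.map_C, Polynomial.eval_C] at h1
      rw [← hGx, hGτ, zero_mul] at h1
      rcases mul_eq_zero.mp h1 with h2 | h2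
      · exfalso
        exact ha ((map_eq_zero (algebraMap ℝ ℂ)).mp h2)
      · exact h2
    have hr2 := hspec a2 P2 S2 hS2 hxa2
    have hr1 := hspec a1 P1 S1 hS1 hxa1
    have hτd : τ ^ d = ((ρ x : ℝ) : ℂ) ^ d := by
      rw [hP2] at hr2
      simp only [Polynomial.map_sub, Polynomial.map_pow, Polynomial.map_X, Polynomial.map_C,
        Polynomial.eval_sub, Polynomial.eval_pow, Polynomial.eval_X, Polynomial.eval_C] at hr2
      rw [← hρd] at hr2
      rw [sub_eq_zero] at hr2
      rw [hr2]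
      push_cast
      rfl
    have hnorm : ‖τ‖ = ρ x := by
      have h1 := congrArg norm hτd
      rw [norm_pow, norm_pow, Complex.norm_real, Real.norm_eq_abs, abs_of_pos hρx] at h1
      exact (pow_left_inj₀ (norm_nonneg _) hρx.le (by omega)).mp h1
    have hτρ : τ = ((ρ x : ℝ) : ℂ) := by
      refine root_unique he (fun k => eval x (W k)) N (ρ x) hρx (fun k => hW k x) (hW1 x hx)
        (hrel x hx) τ hnorm ?_
      rw [hP1] at hr1
      simp only [Polynomial.map_sub, Polynomial.map_sum, Polynomial.map_mul, Polynomial.map_pow,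
        Polynomial.map_X, Polynomial.map_C, Polynomial.eval_sub, Polynomial.eval_finsetSum,
        Polynomial.eval_mul, Polynomial.eval_pow, Polynomial.eval_X, Polynomial.eval_C, eval_C]
        at hr1
      rw [sub_eq_zero] at hr1
      rw [← Complex.coe_algebraMap, ← hr1]
      refine Finset.sum_congr rfl fun k _ => ?_
      rw [mul_comm]
    -- double root
    have hTρ : T.eval (ρ x) = 0 := by
      have h1 : (T.map (algebraMap ℝ ℂ)).eval (algebraMap ℝ ℂ (ρ x)) = 0 := by
        have h2 : τ = algebraMap ℝ ℂ (ρ x) := hτρ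
        rw [← h2]
        exact hτ
      rw [Polynomial.eval_map_algebraMap, Polynomial.aeval_algebraMap_apply] at h1
      have h3 : (Polynomial.aeval (ρ x)) T = 0 := by
        have : ((Polynomial.aeval (ρ x)) T : ℂ) = 0 := h1
        exact_mod_cast this
      simpa using h3
    obtain ⟨U, hU⟩ := Polynomial.dvd_iff_isRoot.mpr hTρ
    have h2 := congrArg (fun R => R.map (eval x)) hS2
    simp only [Polynomial.map_mul, Polynomial.map_C] at h2
    rw [← hGx, hT, hU, hP2] at h2
    simp only [Polynomial.map_sub, Polynomial.map_pow, Polynomial.map_X, Polynomial.map_C] at h2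
    have h3 := congrArg (fun R => (Polynomial.derivative R).eval (ρ x)) h2
    simp only [Polynomial.derivative_mul, Polynomial.derivative_C, Polynomial.derivative_sub,
      Polynomial.derivative_X_pow, Polynomial.derivative_X, Polynomial.eval_add,
      Polynomial.eval_mul, Polynomial.eval_sub, Polynomial.eval_pow, Polynomial.eval_X,
      Polynomial.eval_C, Polynomial.eval_zero, Polynomial.eval_one, sub_self, zero_mul, mul_zero,
      add_zero, zero_add, sub_zero, mul_one, one_mul, Polynomial.eval_natCast] at h3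
    rcases mul_eq_zero.mp h3 with h4 | h4
    · exact hxa2 h4
    · rcases mul_eq_zero.mp h4 with h5 | h5
      · have h6 : d = 0 := by exact_mod_cast h5
        omega
      · exact (pow_ne_zero _ hρx.ne') h5
  have hG1 : G = Polynomial.C (G.coeff 1) * Polynomial.X + Polynomial.C (G.coeff 0) :=
    Polynomial.eq_X_add_C_of_natDegree_le_one hdeg1
  set α := G.coeff 1 with hα
  set β := G.coeff 0 with hβ
  have hα0 : α ≠ 0 := by
    have : G.natDegree = 1 := by omega
    rw [hα, ← this]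
    exact hℓ0
  have hlin : ∀ x, x ≠ 0 → eval x α * ρ x = eval x (-β) := by
    intro x hx
    have h1 := hGI x hx
    rw [hG1, Polynomial.eval₂_add, Polynomial.eval₂_mul, Polynomial.eval₂_C, Polynomial.eval₂_C,
      Polynomial.eval₂_X] at h1
    rw [map_neg]
    linarith
  have hpow : α ^ d * Q = (-β) ^ d := by
    rw [← sub_eq_zero]
    refine mv_zero_of_ne _ fun x hx => ?_
    rw [map_sub, map_mul, map_pow, map_pow, ← hlin x hx, ← hρd, mul_pow, sub_self]
  have hdvd : α ∣ -β :=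
    (UniqueFactorizationMonoid.pow_dvd_pow_iff_dvd (by omega : d ≠ 0)).mp ⟨Q, hpow.symm⟩
  obtain ⟨r, hr⟩ := hdvd
  have hrd : r ^ d = Q := by
    rw [hr, mul_pow] at hpow
    exact (mul_left_cancel₀ (pow_ne_zero d hα0) hpow).symm
  have habs : ∀ x, |eval x r| = ρ x := by
    intro x
    have h1 : |eval x r| ^ d = ρ x ^ d := by
      rw [hρd, ← hrd, map_pow, ← abs_pow, abs_of_nonneg]
      rw [← map_pow, hrd, ← hρd]
      exact pow_nonneg (hρ0 x) d
    exact (pow_left_inj₀ (abs_nonneg _) (hρ0 x) (by omega)).mp h1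
  refine ⟨r, fun x => ?_⟩
  rw [← habs x, eq_comm, abs_eq_self]
  by_contra hneg
  rw [not_le] at hneg
  obtain ⟨y, hy0, hyα, hyr⟩ := mv_near α r hα0 x hneg
  have h1 := hlin y hy0
  rw [hr, map_mul] at h1
  have h2 : ρ y = eval y r := mul_left_cancel₀ hyα h1
  have h3 := hρ0 y
  linarith

end Pool.Agent.Work.MP_49847a_an
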