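import Pool.Agent.Work.MP_49847a_an.Ell.EMain
import Pool.Agent.Work.MP_49847a_an.Rat.Avg
import Pool.Agent.Work.MP_49847a_an.Lf.B1
import Pool.Agent.Work.MP_49847a_an.Lf.B6

/-!
# Homogeneous hypersurfaces
-/

namespace Pool.Agent.Work.MP_49847a_an

open MvPolynomial

variable {n : ℕ}

theorem ev_hom {F : MvPolynomial (Fin n ⊕ Fin n) ℝ} {k : ℕ} (hF : F.IsHomogeneous k) (t : ℝ)
    (z : Fin n → ℂ) : ev F ((t : ℂ) • z) = t ^ k * ev F z := by
  unfold ev
  rw [eval_eq, eval_eq, Finset.mul_sum]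
  refine Finset.sum_congr rfl fun d hd => ?_
  have h1 : d.degree = k := by
    rw [Finsupp.degree_eq_weight_one]
    exact hF (mem_support_iff.1 hd)
  have h2 : ∀ j, (Sum.elim (fun i => (((t : ℂ) • z) i).re) (fun i => (((t : ℂ) • z) i).im) :
      Fin n ⊕ Fin n → ℝ) j = t * (Sum.elim (fun i => (z i).re) (fun i => (z i).im)) j := by
    intro j
    rcases j with j | j <;> simp
  simp only [h2]
  have h3 : ∏ j ∈ d.support, (t * (Sum.elim (fun i => (z i).re) (fun i => (z i).im) :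
      Fin n ⊕ Fin n → ℝ) j) ^ d j = t ^ k * ∏ j ∈ d.support,
        (Sum.elim (fun i => (z i).re) (fun i => (z i).im) : Fin n ⊕ Fin n → ℝ) j ^ d j := by
    simp only [mul_pow]
    rw [Finset.prod_mul_distrib, Finset.prod_pow_eq_pow_sum]
    congr 2
  rw [h3]
  ring

/-- restriction of a real polynomial to a circle is a Laurent polynomial -/
theorem ev_LB (F : MvPolynomial (Fin n ⊕ Fin n) ℝ) (v : Fin n → ℂ) :
    (fun ζ : S1 => ((ev F ((ζ : ℂ) • v) : ℝ) : ℂ)) ∈ LB := by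
  induction F using MvPolynomial.induction_on with
  | C a =>
    have h : (fun ζ : S1 => ((ev (C a) ((ζ : ℂ) • v) : ℝ) : ℂ)) = algebraMap ℂ (S1 → ℂ) (a : ℂ) := by
      funext ζ
      rw [ev_C]
      rfl
    rw [h]
    exact LB.algebraMap_mem _
  | add p q hp hq =>
    have h : (fun ζ : S1 => ((ev (p + q) ((ζ : ℂ) • v) : ℝ) : ℂ)) =
        (fun ζ : S1 => ((ev p ((ζ : ℂ) • v) : ℝ) : ℂ)) + fun ζ : S1 =>
          ((ev q ((ζ : ℂ) • v) : ℝ) : ℂ) := by
      funext ζ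
      rw [ev_add, Pi.add_apply]
      push_cast
      rfl
    rw [h]
    exact LB.add_mem hp hq
  | mul_X p i hp =>
    have h : (fun ζ : S1 => ((ev (p * X i) ((ζ : ℂ) • v) : ℝ) : ℂ)) =
        (fun ζ : S1 => ((ev p ((ζ : ℂ) • v) : ℝ) : ℂ)) * fun ζ : S1 =>
          ((ev (X i) ((ζ : ℂ) • v) : ℝ) : ℂ) := by
      funext ζ
      rw [ev_mul, Pi.mul_apply]
      push_cast
      rfl
    rw [h]
    refine LB.mul_mem hp ?_
    rcases i with i | i
    · have h1 : (fun ζ : S1 => ((ev (X (Sum.inl i)) ((ζ : ℂ) • v) : ℝ) : ℂ)) =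
          algebraMap ℂ (S1 → ℂ) (v i / 2) * (zLB : S1 → ℂ) +
            algebraMap ℂ (S1 → ℂ) ((starRingEnd ℂ) (v i) / 2) * (wLB : S1 → ℂ) := by
        funext ζ
        have h2 : ev (X (Sum.inl i)) ((ζ : ℂ) • v) = ((ζ : ℂ) * v i).re := by simp [ev]
        rw [h2, Complex.re_eq_add_conj, map_mul]
        show _ = v i / 2 * (ζ : ℂ) + (starRingEnd ℂ) (v i) / 2 * (starRingEnd ℂ) (ζ : ℂ)
        ring
      rw [h1]
      exact LB.add_mem (LB.mul_mem (LB.algebraMap_mem _) zLB.2)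
        (LB.mul_mem (LB.algebraMap_mem _) wLB.2)
    · have h1 : (fun ζ : S1 => ((ev (X (Sum.inr i)) ((ζ : ℂ) • v) : ℝ) : ℂ)) =
          algebraMap ℂ (S1 → ℂ) (v i / (2 * Complex.I)) * (zLB : S1 → ℂ) -
            algebraMap ℂ (S1 → ℂ) ((starRingEnd ℂ) (v i) / (2 * Complex.I)) * (wLB : S1 → ℂ) := by
        funext ζ
        have h2 : ev (X (Sum.inr i)) ((ζ : ℂ) • v) = ((ζ : ℂ) * v i).im := by simp [ev]
        rw [h2, Complex.im_eq_sub_conj, map_mul]
        show _ = v i / (2 * Complex.I) * (ζ : ℂ) - (starRingEnd ℂ) (v i) / (2 * Complex.I) *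
          (starRingEnd ℂ) (ζ : ℂ)
        ring
      rw [h1]
      exact LB.sub_mem (LB.mul_mem (LB.algebraMap_mem _) zLB.2)
        (LB.mul_mem (LB.algebraMap_mem _) wLB.2)

theorem eval_map_conj_poly (P : Polynomial ℂ) (t : ℂ) :
    (P.map (starRingEnd ℂ)).eval ((starRingEnd ℂ) t) = (starRingEnd ℂ) (P.eval t) := by
  rw [Polynomial.eval_map, Polynomial.eval₂_at_apply]

section main

variable {Q : MvPolynomial (Fin n ⊕ Fin n) ℝ} {d : ℕ}

/-- the relation on `{Q = 1}` -/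
def Rel (Q : MvPolynomial (Fin n ⊕ Fin n) ℝ) {m : ℕ} (q : Fin m → MvPolynomial (Fin n) ℂ) (N : ℝ) :
    Prop := (∀ i : Fin n, ∃ j, q j = X i) ∧ ∀ u, ev Q u = 1 → nrm q u = N

theorem rel_const {m : ℕ} {q : Fin m → MvPolynomial (Fin n) ℂ} {N : ℝ} (hR : Rel Q q N)
    (hd : 0 < d) (hQ : Q.IsHomogeneous (2 * d)) (hpos : ∀ z, z ≠ 0 → 0 < ev Q z)
    (v : Fin n → ℂ) (ζ : ℂ) (hζ : ‖ζ‖ = 1) : ev Q (ζ • v) = ev Q v := by
  by_cases hv : v = 0
  · rw [hv, smul_zero]
  have hne : ∀ η : S1, (η : ℂ) • v ≠ 0 := fun η => smul_ne_zero (S1_ne η) hv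
  have hp : ∀ η : S1, 0 < ev Q ((η : ℂ) • v) := fun η => hpos _ (hne η)
  set s : S1 → ℝ := fun η => (ev Q ((η : ℂ) • v)) ^ (-(1 / (2 * d : ℝ))) with hs
  have hsp : ∀ η, s η ^ (2 * d) * ev Q ((η : ℂ) • v) = 1 := by
    intro η
    have h1 : s η ^ (2 * d) = (ev Q ((η : ℂ) • v))⁻¹ := by
      rw [hs]
      simp only
      rw [← Real.rpow_natCast, ← Real.rpow_mul (hp η).le, ← Real.rpow_neg_one]
      congr 1
      push_cast
      have : (d : ℝ) ≠ 0 := by exact_mod_cast hd.ne'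
      field_simp
    rw [h1, inv_mul_cancel₀ (hp η).ne']
  choose P hP using fun j => line_poly (q j) 0 v
  obtain ⟨i, hi⟩ : ∃ i, v i ≠ 0 := by
    by_contra hcon
    push Not at hcon
    exact hv (funext hcon)
  obtain ⟨ji, hji⟩ := hR.1 i
  have hPi : P ji = Polynomial.C (v i) * Polynomial.X := by
    refine Polynomial.funext fun t => ?_
    rw [hP, hji, eval_X]
    simp
    ring
  have hdeg : ∃ j, 1 ≤ (P j).natDegree := by
    refine ⟨ji, ?_⟩
    rw [hPi, Polynomial.natDegree_C_mul_X _ hi]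
  have hrel : ∀ η : S1, (N : ℂ) = ∑ j, (P j).eval ((s η : ℂ) * η) *
      ((P j).map (starRingEnd ℂ)).eval ((s η : ℂ) * (starRingEnd ℂ) (η : ℂ)) := by
    intro η
    have h1 : ev Q (((s η : ℝ) : ℂ) • ((η : ℂ) • v)) = 1 := by
      rw [ev_hom hQ]
      exact hsp η
    have h2 := hR.2 _ h1
    rw [← h2, nrm]
    push_cast
    refine Finset.sum_congr rfl fun j _ => ?_
    have h3 : ((s η : ℂ) * (starRingEnd ℂ) (η : ℂ)) = (starRingEnd ℂ) ((s η : ℂ) * η) := by
      rw [map_mul, Complex.conj_ofReal]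
    rw [h3, eval_map_conj_poly, Complex.mul_conj', hP, zero_add, smul_smul]
  have hint := circ_integral P (N : ℂ) hdeg (fun η => (s η : ℂ)) hrel
  obtain ⟨c, hc⟩ := circ_const (fun η : S1 => ((ev Q ((η : ℂ) • v) : ℝ) : ℂ)) _ (ev_LB Q v) (2 * d)
    (fun η => by
      have := hsp η
      exact_mod_cast this) hint
  have h1 := hc ⟨ζ, hζ⟩
  have h2 := hc ⟨1, by simp⟩
  simp only at h1 h2
  rw [one_smul] at h2
  rw [Complex.norm_real, Real.norm_eq_abs] at h1 h2
  rw [abs_of_pos (hp ⟨ζ, hζ⟩)] at h1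
  rw [abs_of_pos (hpos v hv)] at h2
  rw [h1, h2]

theorem rel_root {m : ℕ} {q : Fin m → MvPolynomial (Fin n) ℂ} {N : ℝ} (hR : Rel Q q N)
    (hd : 0 < d) (hQ : Q.IsHomogeneous (2 * d)) (hpos : ∀ z, z ≠ 0 → 0 < ev Q z) :
    ∃ r : MvPolynomial (Fin n ⊕ Fin n) ℝ, ∀ z, ev r z = (ev Q z) ^ (1 / (d : ℝ)) := by
  have hQ0 : ev Q 0 = 0 := by
    have h := ev_hom hQ 0 0
    rw [smul_zero, zero_pow (by omega), zero_mul] at h
    exact h
  have hQn : ∀ z, 0 ≤ ev Q z := by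
    intro z
    by_cases hz : z = 0
    · rw [hz, hQ0]
    · exact (hpos z hz).le
  set zx : (Fin n ⊕ Fin n → ℝ) → Fin n → ℂ := fun x i =>
    (x (Sum.inl i) : ℂ) + (x (Sum.inr i) : ℂ) * Complex.I with hzx
  have hev : ∀ (F : MvPolynomial (Fin n ⊕ Fin n) ℝ) x, ev F (zx x) = eval x F := by
    intro F x
    unfold ev
    congr 2
    funext i
    rcases i with i | i <;> simp [hzx]
  have hzx0 : ∀ x, x ≠ 0 → zx x ≠ 0 := by
    intro x hx h0
    apply hx
    funext i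
    rcases i with i | i
    · have := congrArg Complex.re (congrFun h0 i)
      simpa [hzx] using this
    · have := congrArg Complex.im (congrFun h0 i)
      simpa [hzx] using this
  set e : ℕ := max 1 (Finset.univ.sup fun j => (q j).totalDegree) with he
  have hqe : ∀ j, (q j).totalDegree ≤ e := fun j =>
    (Finset.le_sup (f := fun j => (q j).totalDegree) (Finset.mem_univ j)).trans (le_max_right _ _)
  have he1 : 1 ≤ e := le_max_left _ _
  choose W hW using fun k => exists_nrm (fun j => homogeneousComponent k (q j))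
  have key : ∀ z, z ≠ 0 → ∀ ρ : ℝ, 0 < ρ → ρ ^ d = ev Q z →
      N * ρ ^ e = ∑ k ∈ Finset.range (e + 1), ρ ^ (e - k) * ev (W k) z := by
    intro z hz ρ hρ hρd
    set σ := Real.sqrt ρ with hσ
    have hσ0 : 0 < σ := Real.sqrt_pos.mpr hρ
    have hσ2 : σ ^ 2 = ρ := Real.sq_sqrt hρ.le
    have h1 : ∀ s, nrm q (fun i => rot e s * ((σ⁻¹ : ℝ) : ℂ) * z i) = N := by
      intro s
      apply hR.2
      have h2 : (fun i => rot e s * ((σ⁻¹ : ℝ) : ℂ) * z i) = ((σ⁻¹ : ℝ) : ℂ) • (rot e s • z) := by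
        funext i
        simp
        ring
      rw [h2, ev_hom hQ, rel_const hR hd hQ hpos z _ (norm_rot e s), ← hρd, ← hσ2, ← pow_mul,
        ← mul_pow, inv_mul_cancel₀ hσ0.ne', one_pow]
    have h2 := avg q hqe (fun i => ((σ⁻¹ : ℝ) : ℂ) * z i)
    have h3 : ∑ s ∈ Finset.range (e + 1), nrm q (fun i => rot e s * (((σ⁻¹ : ℝ) : ℂ) * z i)) =
        (e + 1) * N := by
      rw [Finset.sum_congr rfl fun s _ => by
        rw [show (fun i => rot e s * (((σ⁻¹ : ℝ) : ℂ) * z i)) =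
          (fun i => rot e s * ((σ⁻¹ : ℝ) : ℂ) * z i) from funext fun i => (mul_assoc _ _ _).symm,
          h1 s]]
      simp
    rw [h3] at h2
    have h4 : N = ∑ j, ∑ k ∈ Finset.range (e + 1),
        ‖eval (fun i => ((σ⁻¹ : ℝ) : ℂ) * z i) (homogeneousComponent k (q j))‖ ^ 2 := by
      have h5 : ((e : ℝ) + 1) ≠ 0 := by positivity
      exact mul_left_cancel₀ h5 h2
    rw [Finset.sum_comm] at h4
    rw [h4, Finset.sum_mul]
    refine Finset.sum_congr rfl fun k hk => ?_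
    have hk' : k ≤ e := Nat.lt_succ_iff.mp (Finset.mem_range.mp hk)
    rw [hW, nrm, Finset.sum_mul, Finset.mul_sum]
    refine Finset.sum_congr rfl fun j _ => ?_
    have h6 : eval (fun i => ((σ⁻¹ : ℝ) : ℂ) * z i) (homogeneousComponent k (q j)) =
        ((σ⁻¹ : ℝ) : ℂ) ^ k * eval z (homogeneousComponent k (q j)) := by
      have h7 := homogeneousComponent_isHomogeneous k (q j)
      rw [eval_eq, eval_eq, Finset.mul_sum]
      refine Finset.sum_congr rfl fun d hd => ?_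
      have h8 : d.degree = k := by
        rw [Finsupp.degree_eq_weight_one]
        exact h7 (mem_support_iff.1 hd)
      have h9 : ∏ j ∈ d.support, (((σ⁻¹ : ℝ) : ℂ) * z j) ^ d j =
          ((σ⁻¹ : ℝ) : ℂ) ^ k * ∏ j ∈ d.support, z j ^ d j := by
        simp only [mul_pow]
        rw [Finset.prod_mul_distrib, Finset.prod_pow_eq_pow_sum]
        congr 2
      rw [h9]
      ring
    rw [h6, norm_mul, norm_pow, Complex.norm_real, Real.norm_eq_abs, abs_of_pos (inv_pos.mpr hσ0),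
      mul_pow, ← pow_mul, mul_comm k 2, pow_mul, inv_pow, hσ2]
    have h10 : ρ ^ e = ρ ^ (e - k) * ρ ^ k := by
      rw [← pow_add]
      congr 1
      omega
    have h11 : ρ⁻¹ ^ k * ρ ^ k = 1 := by
      rw [← mul_pow, inv_mul_cancel₀ hρ.ne', one_pow]
    rw [h10]
    linear_combination (ρ ^ (e - k) * ‖eval z (homogeneousComponent k (q j))‖ ^ 2) * h11
  have hW1 : ∀ z, z ≠ 0 → 0 < ev (W 1) z := by
    intro z hz
    rw [hW]
    obtain ⟨i, hi⟩ : ∃ i, z i ≠ 0 := by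
      by_contra hcon
      push Not at hcon
      exact hz (funext hcon)
    obtain ⟨j, hj⟩ := hR.1 i
    refine Finset.sum_pos' (fun _ _ => by positivity) ⟨j, Finset.mem_univ _, ?_⟩
    show 0 < ‖eval z (homogeneousComponent 1 (q j))‖ ^ 2
    rw [hj]
    have h1 : homogeneousComponent 1 (X i : MvPolynomial (Fin n) ℂ) = X i := by
      have := homogeneousComponent_of_mem (isHomogeneous_X ℂ i) (m := 1)
      rw [if_pos rfl] at this
      exact this
    rw [h1, eval_X]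
    positivity
  have hd' : (d : ℝ) ≠ 0 := by exact_mod_cast hd.ne'
  have hroot : ∀ x : ℝ, 0 ≤ x → (x ^ (1 / (d : ℝ))) ^ d = x := by
    intro x hx
    rw [← Real.rpow_natCast, ← Real.rpow_mul hx, one_div, inv_mul_cancel₀ hd', Real.rpow_one]
  obtain ⟨r, hr⟩ := root_poly (fun x => (eval x Q) ^ (1 / (d : ℝ))) Q d e hd he1
    (fun x => Real.rpow_nonneg (by rw [← hev]; exact hQn _) _)
    (fun x hx => Real.rpow_pos_of_pos (by rw [← hev]; exact hpos _ (hzx0 x hx)) _)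
    (fun x => hroot _ (by rw [← hev]; exact hQn _)) W
    (fun k x => by
      rw [← hev, hW]
      exact Finset.sum_nonneg fun _ _ => by positivity)
    (fun x hx => by
      rw [← hev]
      exact hW1 _ (hzx0 x hx)) N
    (fun x hx => by
      have h1 := key (zx x) (hzx0 x hx) ((eval x Q) ^ (1 / (d : ℝ)))
        (Real.rpow_pos_of_pos (by rw [← hev]; exact hpos _ (hzx0 x hx)) _)
        (by
          rw [hev]
          exact hroot _ (by rw [← hev]; exact hQn _))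
      rw [h1]
      exact Finset.sum_congr rfl fun k _ => by rw [hev])
  refine ⟨r, fun z => ?_⟩
  exact hr _

end main

end Pool.Agent.Work.MP_49847a_an
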