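import Pool.Agent.Work.MP_49847a_an.Rat.RDefs

/-!
# Degrees of real polynomials on `ℂⁿ`: definitions

* `zb r`: the real polynomial `r` written as a polynomial in `z` (variables `inl i`) and `conj z`
  (variables `inr i`): `(z_i + conj z_i)/2` is inserted for `Re z_i` and `(z_i - conj z_i)/(2i)` for
  `Im z_i`;
* `degz A`: the degree of `A` in the variables `inl i`.
-/

namespace Pool.Agent.Work.MP_49847a_an

open MvPolynomial

/-- a real polynomial written in the variables `z` (`inl`) and `conj z` (`inr`) -/
noncomputable def zb {n : ℕ} (F : MvPolynomial (Fin n ⊕ Fin n) ℝ) :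
    MvPolynomial (Fin n ⊕ Fin n) ℂ :=
  aeval (Sum.elim (fun i => C (1 / 2) * (X (Sum.inl i) + X (Sum.inr i)))
    (fun i => C (1 / (2 * Complex.I)) * (X (Sum.inl i) - X (Sum.inr i))))
    (map (algebraMap ℝ ℂ) F)

/-- the degree in the first group of variables -/
noncomputable def degz {n : ℕ} (A : MvPolynomial (Fin n ⊕ Fin n) ℂ) : ℕ :=
  A.support.sup fun m => ∑ i, m (Sum.inl i)

end Pool.Agent.Work.MP_49847a_an
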