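import Pool.Agent.Work.MP_49847a_an.Pol
import Pool.Agent.Work.MP_49847a_an.Lf.LDefs

/-!
# Degrees in two groups of variables
-/

namespace Pool.Agent.Work.MP_49847a_an
open MvPolynomial

variable {n : ℕ}

theorem sumAlg_inl (q : MvPolynomial (Fin n) ℂ) :
    sumAlgEquiv ℂ (Fin n) (Fin n) (rename Sum.inl q) = map C q := by
  have h := DFunLike.congr_fun (sumAlgEquiv_comp_rename_inl (R := ℂ) (S₁ := Fin n) (S₂ := Fin n)) q
  simpa using h

theorem sumAlg_inr (q : MvPolynomial (Fin n) ℂ) :
    sumAlgEquiv ℂ (Fin n) (Fin n) (rename Sum.inr q) = C q := by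
  have h := DFunLike.congr_fun (sumAlgEquiv_comp_rename_inr (R := ℂ) (S₁ := Fin n) (S₂ := Fin n)) q
  simpa using h

theorem coeff_sumAlg_mul (a b : MvPolynomial (Fin n) ℂ) (m₁ m₂ : Fin n →₀ ℕ) :
    coeff m₂ (coeff m₁ (sumAlgEquiv ℂ (Fin n) (Fin n) (rename Sum.inl a * rename Sum.inr b))) =
      coeff m₁ a * coeff m₂ b := by
  rw [map_mul, sumAlg_inl, sumAlg_inr, mul_comm, coeff_C_mul, coeff_map, mul_comm, coeff_C_mul]

theorem monomial_split (s : Fin n ⊕ Fin n →₀ ℕ) (a : ℂ) :
    monomial s a = rename Sum.inl (monomial (s.comapDomain Sum.inl Sum.inl_injective.injOn) 1) *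
      rename Sum.inr (monomial (s.comapDomain Sum.inr Sum.inr_injective.injOn) a) := by
  have hs : s = Finsupp.mapDomain Sum.inl (s.comapDomain Sum.inl Sum.inl_injective.injOn) +
      Finsupp.mapDomain Sum.inr (s.comapDomain Sum.inr Sum.inr_injective.injOn) := by
    refine Finsupp.ext fun i => ?_
    rcases i with i | i
    · rw [Finsupp.add_apply, Finsupp.mapDomain_apply Sum.inl_injective,
        Finsupp.mapDomain_of_notMem_range, add_zero, Finsupp.comapDomain_apply]
      rintro ⟨x, hx⟩
      exact absurd hx (by simp)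
    · rw [Finsupp.add_apply, Finsupp.mapDomain_apply Sum.inr_injective,
        Finsupp.mapDomain_of_notMem_range, zero_add, Finsupp.comapDomain_apply]
      rintro ⟨x, hx⟩
      exact absurd hx (by simp)
  rw [rename_monomial, rename_monomial, monomial_mul, one_mul, ← hs]

theorem coeff_sumAlg (A : MvPolynomial (Fin n ⊕ Fin n) ℂ) (m₁ m₂ : Fin n →₀ ℕ) :
    coeff m₂ (coeff m₁ (sumAlgEquiv ℂ (Fin n) (Fin n) A)) = coeff (m₁.sumElim m₂) A := by
  induction A using MvPolynomial.induction_on' with
  | monomial s a =>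
    rw [monomial_split, coeff_sumAlg_mul, ← monomial_split, coeff_monomial, coeff_monomial,
      coeff_monomial]
    by_cases h : s = m₁.sumElim m₂
    · have h1 : s.comapDomain Sum.inl Sum.inl_injective.injOn = m₁ := by
        ext i
        rw [h]
        rfl
      have h2 : s.comapDomain Sum.inr Sum.inr_injective.injOn = m₂ := by
        ext i
        rw [h]
        rfl
      rw [if_pos h, if_pos h1, if_pos h2, one_mul]
    · rw [if_neg h]
      by_cases h1 : s.comapDomain Sum.inl Sum.inl_injective.injOn = m₁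
      · by_cases h2 : s.comapDomain Sum.inr Sum.inr_injective.injOn = m₂
        · exfalso
          apply h
          ext i
          rcases i with i | i
          · rw [← h1]
            rfl
          · rw [← h2]
            rfl
        · rw [if_neg h2, mul_zero]
      · rw [if_neg h1, zero_mul]
  | add p q hp hq => rw [map_add, coeff_add, coeff_add, coeff_add, hp, hq]

/-- the degree in the second group of variables -/
noncomputable def degw (A : MvPolynomial (Fin n ⊕ Fin n) ℂ) : ℕ :=
  A.support.sup fun m => ∑ i, m (Sum.inr i)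

theorem degz_eq (A : MvPolynomial (Fin n ⊕ Fin n) ℂ) :
    degz A = (sumAlgEquiv ℂ (Fin n) (Fin n) A).totalDegree := by
  apply le_antisymm
  · refine Finset.sup_le fun m hm => ?_
    have h1 : coeff (m.comapDomain Sum.inr Sum.inr_injective.injOn)
        (coeff (m.comapDomain Sum.inl Sum.inl_injective.injOn)
          (sumAlgEquiv ℂ (Fin n) (Fin n) A)) ≠ 0 := by
      rw [coeff_sumAlg]
      have : (m.comapDomain Sum.inl Sum.inl_injective.injOn).sumElim
          (m.comapDomain Sum.inr Sum.inr_injective.injOn) = m := by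
        ext i
        rcases i with i | i <;> rfl
      rw [this]
      exact mem_support_iff.mp hm
    have h2 : m.comapDomain Sum.inl Sum.inl_injective.injOn ∈
        (sumAlgEquiv ℂ (Fin n) (Fin n) A).support := by
      rw [mem_support_iff]
      intro h
      rw [h] at h1
      simp at h1
    have h3 := le_totalDegree h2
    rw [Finsupp.sum_fintype _ _ (fun _ => rfl)] at h3
    simpa using h3
  · rw [totalDegree]
    refine Finset.sup_le fun m₁ hm₁ => ?_
    rw [mem_support_iff] at hm₁
    obtain ⟨m₂, hm₂⟩ := ne_zero_iff.mp hm₁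
    rw [coeff_sumAlg] at hm₂
    have h3 := Finset.le_sup (f := fun m : Fin n ⊕ Fin n →₀ ℕ => ∑ i, m (Sum.inl i))
      (mem_support_iff.mpr hm₂)
    rw [Finsupp.sum_fintype _ _ (fun _ => rfl)]
    exact h3

theorem degz_mul {A B : MvPolynomial (Fin n ⊕ Fin n) ℂ} (hA : A ≠ 0) (hB : B ≠ 0) :
    degz (A * B) = degz A + degz B := by
  rw [degz_eq, degz_eq, degz_eq, map_mul, totalDegree_mul_of_isDomain]
  · exact (map_ne_zero_iff _ (sumAlgEquiv ℂ (Fin n) (Fin n)).injective).mpr hA
  · exact (map_ne_zero_iff _ (sumAlgEquiv ℂ (Fin n) (Fin n)).injective).mpr hB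

theorem degw_eq (A : MvPolynomial (Fin n ⊕ Fin n) ℂ) :
    degw A = degz (rename Sum.swap A) := by
  unfold degw degz
  apply le_antisymm
  · refine Finset.sup_le fun m hm => ?_
    have h1 : m.mapDomain Sum.swap ∈ (rename Sum.swap A).support := by
      rw [mem_support_iff, coeff_rename_mapDomain Sum.swap (Equiv.sumComm (Fin n) (Fin n)).injective]
      exact mem_support_iff.mp hm
    have h3 := Finset.le_sup (f := fun m : Fin n ⊕ Fin n →₀ ℕ => ∑ i, m (Sum.inl i)) h1
    refine le_trans (le_of_eq ?_) h3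
    refine Finset.sum_congr rfl fun i _ => ?_
    have := Finsupp.mapDomain_apply (Equiv.sumComm (Fin n) (Fin n)).injective m (Sum.inr i)
    exact this.symm
  · refine Finset.sup_le fun m hm => ?_
    rw [mem_support_iff] at hm
    obtain ⟨u, rfl, hu⟩ := coeff_rename_ne_zero _ _ _ hm
    have h3 := Finset.le_sup (f := fun m : Fin n ⊕ Fin n →₀ ℕ => ∑ i, m (Sum.inr i))
      (mem_support_iff.mpr hu)
    refine le_trans (le_of_eq ?_) h3
    refine Finset.sum_congr rfl fun i _ => ?_
    exact Finsupp.mapDomain_apply (Equiv.sumComm (Fin n) (Fin n)).injective u (Sum.inr i)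

theorem degw_mul {A B : MvPolynomial (Fin n ⊕ Fin n) ℂ} (hA : A ≠ 0) (hB : B ≠ 0) :
    degw (A * B) = degw A + degw B := by
  have hinj : Function.Injective (rename (R := ℂ) (Sum.swap : Fin n ⊕ Fin n → Fin n ⊕ Fin n)) :=
    rename_injective _ (Equiv.sumComm (Fin n) (Fin n)).injective
  rw [degw_eq, degw_eq, degw_eq, map_mul, degz_mul]
  · exact (map_ne_zero_iff _ hinj).mpr hA
  · exact (map_ne_zero_iff _ hinj).mpr hB

theorem totalDegree_le_add (A : MvPolynomial (Fin n ⊕ Fin n) ℂ) :
    A.totalDegree ≤ degz A + degw A := by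
  rw [totalDegree]
  refine Finset.sup_le fun m hm => ?_
  rw [Finsupp.sum_fintype _ _ (fun _ => rfl), Fintype.sum_sum_type]
  exact add_le_add (Finset.le_sup (f := fun m : Fin n ⊕ Fin n →₀ ℕ => ∑ i, m (Sum.inl i)) hm)
    (Finset.le_sup (f := fun m : Fin n ⊕ Fin n →₀ ℕ => ∑ i, m (Sum.inr i)) hm)

end Pool.Agent.Work.MP_49847a_an
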