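import Pool.Agent.Work.MP_49847a_an.Rat.SJL
import Pool.Agent.Work.MP_49847a_an.Lf.T1

/-!
# Real polynomials in the variables `z`, `conj z`
-/

namespace Pool.Agent.Work.MP_49847a_an
open MvPolynomial

variable {n : ℕ}

/-- the inverse substitution -/
noncomputable def xyH (n : ℕ) : MvPolynomial (Fin n ⊕ Fin n) ℂ →ₐ[ℂ] MvPolynomial (Fin n ⊕ Fin n) ℂ :=
  aeval (Sum.elim (fun i => X (Sum.inl i) + C Complex.I * X (Sum.inr i))
    (fun i => X (Sum.inl i) - C Complex.I * X (Sum.inr i)))

/-- the substitution -/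
noncomputable def zbH (n : ℕ) : MvPolynomial (Fin n ⊕ Fin n) ℂ →ₐ[ℂ] MvPolynomial (Fin n ⊕ Fin n) ℂ :=
  aeval (Sum.elim (fun i => C (1 / 2) * (X (Sum.inl i) + X (Sum.inr i)))
    (fun i => C (1 / (2 * Complex.I)) * (X (Sum.inl i) - X (Sum.inr i))))

theorem zb_def (F : MvPolynomial (Fin n ⊕ Fin n) ℝ) : zb F = zbH n (map (algebraMap ℝ ℂ) F) := rfl

theorem zbH_xyH (A : MvPolynomial (Fin n ⊕ Fin n) ℂ) : zbH n (xyH n A) = A := by
  have h : (zbH n).comp (xyH n) = AlgHom.id ℂ _ := by
    refine algHom_ext fun i => ?_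
    rcases i with i | i
    · rw [AlgHom.comp_apply, xyH, aeval_X, Sum.elim_inl, map_add, map_mul, zbH, aeval_X, aeval_X,
        Sum.elim_inl, Sum.elim_inr, ← algebraMap_eq, AlgHom.commutes, algebraMap_eq, ← mul_assoc,
        ← C_mul]
      have h1 : Complex.I * (1 / (2 * Complex.I)) = 1 / 2 := by
        field_simp
      rw [h1, AlgHom.id_apply, ← mul_add]
      have h2 : (X (Sum.inl i) + X (Sum.inr i) + (X (Sum.inl i) - X (Sum.inr i)) :
          MvPolynomial (Fin n ⊕ Fin n) ℂ) = C 2 * X (Sum.inl i) := by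
        rw [map_ofNat]
        ring
      rw [h2, ← mul_assoc, ← C_mul]
      norm_num
    · rw [AlgHom.comp_apply, xyH, aeval_X, Sum.elim_inr, map_sub, map_mul, zbH, aeval_X, aeval_X,
        Sum.elim_inl, Sum.elim_inr, ← algebraMap_eq, AlgHom.commutes, algebraMap_eq, ← mul_assoc,
        ← C_mul]
      have h1 : Complex.I * (1 / (2 * Complex.I)) = 1 / 2 := by
        field_simp
      rw [h1, AlgHom.id_apply, ← mul_sub]
      have h2 : (X (Sum.inl i) + X (Sum.inr i) - (X (Sum.inl i) - X (Sum.inr i)) :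
          MvPolynomial (Fin n ⊕ Fin n) ℂ) = C 2 * X (Sum.inr i) := by
        rw [map_ofNat]
        ring
      rw [h2, ← mul_assoc, ← C_mul]
      norm_num
  exact DFunLike.congr_fun h A

theorem eval_xyH (A : MvPolynomial (Fin n ⊕ Fin n) ℂ) (y : Fin n ⊕ Fin n → ℂ) :
    eval y (xyH n A) = eval (Sum.elim (fun i => y (Sum.inl i) + Complex.I * y (Sum.inr i))
      (fun i => y (Sum.inl i) - Complex.I * y (Sum.inr i))) A := by
  unfold xyH
  induction A using MvPolynomial.induction_on with
  | C a => simp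
  | add p q hp hq => simp only [map_add, hp, hq]
  | mul_X p i hp =>
    rw [map_mul, map_mul, hp, aeval_X, map_mul]
    rcases i with i | i <;> simp

theorem zb_eq {F : MvPolynomial (Fin n ⊕ Fin n) ℝ} {A : MvPolynomial (Fin n ⊕ Fin n) ℂ}
    (h : ∀ z : Fin n → ℂ, eval (Sum.elim z (fun i => (starRingEnd ℂ) (z i))) A = ((ev F z : ℝ) : ℂ)) :
    zb F = A := by
  have key : map (algebraMap ℝ ℂ) F = xyH n A := by
    refine funext_set (fun _ => Set.range ((↑) : ℝ → ℂ))
      (fun _ => Set.infinite_range_of_injective Complex.ofReal_injective) fun x hx => ?_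
    have hx' : ∀ i, ∃ t : ℝ, (t : ℂ) = x i := fun i => hx i (Set.mem_univ i)
    choose t ht using hx'
    have hxt : x = fun i => ((t i : ℝ) : ℂ) := by
      funext i
      exact (ht i).symm
    rw [hxt, eval_map_ofReal, eval_xyH]
    set u : Fin n → ℂ := fun i => (t (Sum.inl i) : ℂ) + Complex.I * (t (Sum.inr i) : ℂ) with hu
    have h1 : eval t F = ev F u := by
      unfold ev
      congr 2
      funext i
      rcases i with i | i <;> simp [hu]
    rw [h1, ← h u]
    congr 3
    funext i
    simp only [hu, map_add, map_mul, Complex.conj_I, Complex.conj_ofReal]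
    ring
  rw [zb_def, key, zbH_xyH]

theorem eval_zb (F : MvPolynomial (Fin n ⊕ Fin n) ℝ) (z : Fin n → ℂ) :
    eval (Sum.elim z (fun i => (starRingEnd ℂ) (z i))) (zb F) = ((ev F z : ℝ) : ℂ) := by
  rw [← pol_self]
  unfold pol zb
  generalize map (algebraMap ℝ ℂ) F = A
  induction A using MvPolynomial.induction_on with
  | C a => simp
  | add p q hp hq => simp only [map_add, hp, hq]
  | mul_X p i hp =>
    rw [map_mul, map_mul, map_mul, hp, aeval_X]
    congr 1
    rcases i with i | i
    · simp
      ring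
    · simp
      field_simp
      rw [Complex.I_sq]
      ring

theorem zb_mul (F G : MvPolynomial (Fin n ⊕ Fin n) ℝ) : zb (F * G) = zb F * zb G := by
  rw [zb_def, map_mul, map_mul]
  rfl

theorem zb_ne_zero {F : MvPolynomial (Fin n ⊕ Fin n) ℝ} (h : F ≠ 0) : zb F ≠ 0 := by
  intro h0
  apply h
  refine ev_ext fun z => ?_
  have h1 := eval_zb F z
  rw [h0, map_zero] at h1
  have h2 : ev F z = 0 := by exact_mod_cast h1.symm
  rw [h2, ev_zero]

theorem degw_zb (F : MvPolynomial (Fin n ⊕ Fin n) ℝ) : degw (zb F) = degz (zb F) := by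
  have h : zb F = rename Sum.swap (map (starRingEnd ℂ) (zb F)) := by
    refine zb_eq fun z => ?_
    rw [eval_rename]
    have h1 : (Sum.elim z (fun i => (starRingEnd ℂ) (z i)) : Fin n ⊕ Fin n → ℂ) ∘ Sum.swap =
        fun j => (starRingEnd ℂ) (Sum.elim z (fun i => (starRingEnd ℂ) (z i)) j) := by
      funext j
      rcases j with j | j <;> simp
    rw [h1, eval_map_conj, eval_zb, Complex.conj_ofReal]
  have h2 : degz (rename Sum.swap (map (starRingEnd ℂ) (zb F))) = degw (map (starRingEnd ℂ) (zb F)) :=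
    (degw_eq _).symm
  have h3 : degw (map (starRingEnd ℂ) (zb F)) = degw (zb F) := by
    unfold degw
    rw [support_map_of_injective _ (starRingEnd ℂ).injective]
  rw [← h, h3] at h2
  exact h2.symm

theorem totalDegree_aeval_le {σ τ : Type*} (f : σ → MvPolynomial τ ℂ)
    (hf : ∀ i, (f i).totalDegree ≤ 1) (p : MvPolynomial σ ℂ) :
    (aeval f p).totalDegree ≤ p.totalDegree := by
  rw [aeval_def, eval₂_eq]
  refine totalDegree_finsetSum_le fun s hs => ?_
  refine (totalDegree_mul _ _).trans ?_
  rw [algebraMap_eq, totalDegree_C, zero_add]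
  refine (totalDegree_finsetProd _ _).trans ?_
  refine le_trans ?_ (le_totalDegree hs)
  rw [Finsupp.sum]
  refine Finset.sum_le_sum fun i _ => ?_
  refine (totalDegree_pow _ _).trans ?_
  calc s i * (f i).totalDegree ≤ s i * 1 := Nat.mul_le_mul_left _ (hf i)
    _ = s i := mul_one _

theorem totalDegree_zb (F : MvPolynomial (Fin n ⊕ Fin n) ℝ) :
    (zb F).totalDegree = F.totalDegree := by
  have hm : (map (algebraMap ℝ ℂ) F).totalDegree = F.totalDegree := by
    unfold totalDegree
    rw [support_map_of_injective _ (algebraMap ℝ ℂ).injective]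
  have h1 : (zb F).totalDegree ≤ F.totalDegree := by
    rw [← hm]
    refine totalDegree_aeval_le _ (fun i => ?_) _
    rcases i with i | i
    · refine (totalDegree_mul _ _).trans ?_
      rw [totalDegree_C, zero_add]
      refine (totalDegree_add _ _).trans ?_
      rw [totalDegree_X, totalDegree_X]
      simp
    · refine (totalDegree_mul _ _).trans ?_
      rw [totalDegree_C, zero_add]
      refine (totalDegree_sub _ _).trans ?_
      rw [totalDegree_X, totalDegree_X]
      simp
  refine le_antisymm h1 ?_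
  have h2 : map (algebraMap ℝ ℂ) F = xyH n (zb F) := by
    refine funext_set (fun _ => Set.range ((↑) : ℝ → ℂ))
      (fun _ => Set.infinite_range_of_injective Complex.ofReal_injective) fun x hx => ?_
    have hx' : ∀ i, ∃ t : ℝ, (t : ℂ) = x i := fun i => hx i (Set.mem_univ i)
    choose t ht using hx'
    have hxt : x = fun i => ((t i : ℝ) : ℂ) := by
      funext i
      exact (ht i).symm
    rw [hxt, eval_map_ofReal, eval_xyH]
    set u : Fin n → ℂ := fun i => (t (Sum.inl i) : ℂ) + Complex.I * (t (Sum.inr i) : ℂ) with hu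
    have h1 : eval t F = ev F u := by
      unfold ev
      congr 2
      funext i
      rcases i with i | i <;> simp [hu]
    rw [h1, ← eval_zb F u]
    congr 3
    funext i
    simp only [hu, map_add, map_mul, Complex.conj_I, Complex.conj_ofReal]
    ring
  rw [← hm, h2]
  refine totalDegree_aeval_le _ (fun i => ?_) _
  rcases i with i | i
  · refine (totalDegree_add _ _).trans ?_
    rw [totalDegree_X]
    refine max_le le_rfl ((totalDegree_mul _ _).trans ?_)
    rw [totalDegree_C, zero_add, totalDegree_X]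
  · refine (totalDegree_sub _ _).trans ?_
    rw [totalDegree_X]
    refine max_le le_rfl ((totalDegree_mul _ _).trans ?_)
    rw [totalDegree_C, zero_add, totalDegree_X]

end Pool.Agent.Work.MP_49847a_an
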