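import Pool.Agent.Work.MP_49847a_an.Lf.T2

/-!
# The degree condition for hypersurfaces with the sum of squares property
-/

namespace Pool.Agent.Work.MP_49847a_an
open MvPolynomial

variable {n : ℕ}

/-- coefficient of `z^m₁ conj(z)^m₂` -/
noncomputable def bc (A : MvPolynomial (Fin n ⊕ Fin n) ℂ) (m₁ m₂ : Fin n →₀ ℕ) : ℂ :=
  coeff (m₁.sumElim m₂) A

theorem bc_add (A B : MvPolynomial (Fin n ⊕ Fin n) ℂ) (m₁ m₂ : Fin n →₀ ℕ) :
    bc (A + B) m₁ m₂ = bc A m₁ m₂ + bc B m₁ m₂ := coeff_add _ _ _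

theorem bc_sub (A B : MvPolynomial (Fin n ⊕ Fin n) ℂ) (m₁ m₂ : Fin n →₀ ℕ) :
    bc (A - B) m₁ m₂ = bc A m₁ m₂ - bc B m₁ m₂ := coeff_sub _ _ _ _

theorem bc_sum {ι : Type*} (s : Finset ι) (A : ι → MvPolynomial (Fin n ⊕ Fin n) ℂ)
    (m₁ m₂ : Fin n →₀ ℕ) : bc (∑ i ∈ s, A i) m₁ m₂ = ∑ i ∈ s, bc (A i) m₁ m₂ := coeff_sum _ _ _

theorem bc_mul (a b : MvPolynomial (Fin n) ℂ) (m₁ m₂ : Fin n →₀ ℕ) :
    bc (rename Sum.inl a * rename Sum.inr b) m₁ m₂ = coeff m₁ a * coeff m₂ b := by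
  rw [bc, ← coeff_sumAlg, coeff_sumAlg_mul]

theorem degz_le_iff (A : MvPolynomial (Fin n ⊕ Fin n) ℂ) (e : ℕ)
    (h : ∀ m₁ m₂, bc A m₁ m₂ ≠ 0 → ∑ i, m₁ i ≤ e) : degz A ≤ e := by
  refine Finset.sup_le fun m hm => ?_
  have h1 : (m.comapDomain Sum.inl Sum.inl_injective.injOn).sumElim
      (m.comapDomain Sum.inr Sum.inr_injective.injOn) = m := by
    ext i
    rcases i with i | i <;> rfl
  have h2 := h (m.comapDomain Sum.inl Sum.inl_injective.injOn)
    (m.comapDomain Sum.inr Sum.inr_injective.injOn) (by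
      rw [bc, h1]
      exact mem_support_iff.mp hm)
  exact h2

theorem le_totalDegree_bc (A : MvPolynomial (Fin n ⊕ Fin n) ℂ) (m₁ m₂ : Fin n →₀ ℕ)
    (h : bc A m₁ m₂ ≠ 0) : ∑ i, m₁ i + ∑ i, m₂ i ≤ A.totalDegree := by
  have h1 := le_totalDegree (mem_support_iff.mpr h)
  rw [Finsupp.sum_fintype _ _ (fun _ => rfl), Fintype.sum_sum_type] at h1
  exact h1

/-- the main degree computation for a Hermitian form `K - ∑ |q_j|²` -/
theorem form_degrees {m : ℕ} (q : Fin m → MvPolynomial (Fin n) ℂ) (K : ℂ)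
    (hq : ∃ j, 1 ≤ (q j).totalDegree) (A : MvPolynomial (Fin n ⊕ Fin n) ℂ)
    (hA : A = C K - ∑ j, rename Sum.inl (q j) * rename Sum.inr (map (starRingEnd ℂ) (q j))) :
    2 * degz A ≤ A.totalDegree := by
  set e := Finset.univ.sup (fun j => (q j).totalDegree) with he
  obtain ⟨j₁, hj₁⟩ := hq
  have hbc : ∀ m₁ m₂, bc A m₁ m₂ = (if (0 : Fin n ⊕ Fin n →₀ ℕ) = m₁.sumElim m₂ then K else 0) -
      ∑ j, coeff m₁ (q j) * (starRingEnd ℂ) (coeff m₂ (q j)) := by
    intro m₁ m₂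
    rw [hA, bc_sub, bc_sum]
    congr 1
    · rw [bc, coeff_C]
    · refine Finset.sum_congr rfl fun j _ => ?_
      rw [bc_mul, coeff_map]
  have hle : ∀ j, (q j).totalDegree ≤ e := fun j =>
    Finset.le_sup (f := fun j => (q j).totalDegree) (Finset.mem_univ j)
  have h1 : degz A ≤ e := by
    refine degz_le_iff A e fun m₁ m₂ hne => ?_
    rw [hbc] at hne
    by_contra hlt
    rw [not_le] at hlt
    apply hne
    have hz : ∀ j, coeff m₁ (q j) = 0 := by
      intro j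
      apply coeff_eq_zero_of_totalDegree_lt
      refine lt_of_le_of_lt (hle j) ?_
      rw [← Finsupp.sum_fintype m₁ (fun _ k => k) (fun _ => rfl)] at hlt
      exact hlt
    rw [if_neg, Finset.sum_eq_zero fun j _ => by rw [hz j, zero_mul], sub_zero]
    intro h0
    have h2 : m₁ = 0 := by
      ext i
      have := DFunLike.congr_fun h0 (Sum.inl i)
      exact this.symm
    rw [h2] at hlt
    simp at hlt
  obtain ⟨j₀, _, hj₀⟩ := Finset.exists_mem_eq_sup Finset.univ ⟨j₁, Finset.mem_univ _⟩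
    (fun j => (q j).totalDegree)
  rw [← he] at hj₀
  have he1 : 1 ≤ e := hj₁.trans (hle j₁)
  have hne : (q j₀).support.Nonempty := by
    rw [Finset.nonempty_iff_ne_empty]
    intro h0
    rw [totalDegree, h0] at hj₀
    simp at hj₀
    omega
  obtain ⟨μ, hμ, hμe⟩ := Finset.exists_mem_eq_sup (q j₀).support hne
    (fun s => s.sum fun _ k => k)
  have hμe' : ∑ i, μ i = e := by
    rw [hj₀, totalDegree, hμe, Finsupp.sum_fintype _ _ (fun _ => rfl)]
  have hbμ : bc A μ μ ≠ 0 := by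
    rw [hbc, if_neg]
    · rw [zero_sub, neg_ne_zero]
      intro h0
      have h2 : (∑ j, coeff μ (q j) * (starRingEnd ℂ) (coeff μ (q j))) =
          ((∑ j, ‖coeff μ (q j)‖ ^ 2 : ℝ) : ℂ) := by
        push_cast
        refine Finset.sum_congr rfl fun j _ => ?_
        exact Complex.mul_conj' _
      rw [h2] at h0
      have h3 : (∑ j, ‖coeff μ (q j)‖ ^ 2 : ℝ) = 0 := by exact_mod_cast h0
      have h4 := (Finset.sum_eq_zero_iff_of_nonneg (fun j _ => by positivity)).mp h3 j₀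
        (Finset.mem_univ _)
      rw [sq_eq_zero_iff, norm_eq_zero] at h4
      exact (mem_support_iff.mp hμ) h4
    · intro h0
      have h2 : μ = 0 := by
        ext i
        have := DFunLike.congr_fun h0 (Sum.inl i)
        exact this.symm
      rw [h2] at hμe'
      simp at hμe'
      omega
  have h3 := le_totalDegree_bc A μ μ hbμ
  rw [hμe'] at h3
  omega

theorem zb_of_nrm {m : ℕ} (q : Fin m → MvPolynomial (Fin n) ℂ) (K : ℝ)
    (F : MvPolynomial (Fin n ⊕ Fin n) ℝ) (hF : ∀ z, ev F z = K - nrm q z) :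
    zb F = C (K : ℂ) - ∑ j, rename Sum.inl (q j) * rename Sum.inr (map (starRingEnd ℂ) (q j)) := by
  refine zb_eq fun z => ?_
  rw [hF z, map_sub, map_sum, eval_C, nrm]
  push_cast
  congr 1
  refine Finset.sum_congr rfl fun j _ => ?_
  rw [map_mul, eval_rename, eval_rename]
  have h1 : (Sum.elim z (fun i => (starRingEnd ℂ) (z i)) : Fin n ⊕ Fin n → ℂ) ∘ Sum.inl = z := rfl
  have h2 : (Sum.elim z (fun i => (starRingEnd ℂ) (z i)) : Fin n ⊕ Fin n → ℂ) ∘ Sum.inr =
      fun i => (starRingEnd ℂ) (z i) := rfl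
  rw [h1, h2, eval_map_conj, Complex.mul_conj']

theorem lead_form (r : MvPolynomial (Fin n ⊕ Fin n) ℝ)
    (hb : Bornology.IsBounded {z | ev r z = 0})
    (hgen : ∀ F : MvPolynomial (Fin n ⊕ Fin n) ℝ, (∀ z, ev r z = 0 → ev F z = 0) → r ∣ F)
    (hS : SumsOn {z | ev r z = 0}) : r.totalDegree = 2 * degz (zb r) := by
  rcases Nat.eq_zero_or_pos n with hn | hn
  · subst hn
    have h1 : r.totalDegree = 0 := by
      rw [totalDegree_eq_zero_iff_eq_C]
      exact eq_C_of_isEmpty r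
    have h2 : degz (zb r) = 0 := by
      have h3 := totalDegree_zb r
      rw [h1] at h3
      unfold degz
      rw [← Nat.le_zero]
      exact Finset.sup_le fun m hm => by simp
    rw [h1, h2]
  have hB : ∃ B : ℝ, ∀ z, ev r z = 0 → nn z ≤ B := by
    obtain ⟨B, hB⟩ := hb.exists_norm_le
    refine ⟨n * B ^ 2, fun z hz => ?_⟩
    have h1 : ∀ i, ‖z i‖ ^ 2 ≤ B ^ 2 := by
      intro i
      have h2 := (norm_le_pi_norm z i).trans (hB z hz)
      exact pow_le_pow_left₀ (norm_nonneg _) h2 2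
    calc nn z ≤ ∑ _i : Fin n, B ^ 2 := Finset.sum_le_sum fun i _ => h1 i
      _ = n * B ^ 2 := by simp
  obtain ⟨B, hB⟩ := hB
  obtain ⟨m, p, hp⟩ := hS (C (B + 1) - WW n 0) (by
    intro z hz
    rw [ev_sub, ev_C, ev_WW]
    have := hB z hz
    linarith)
  set q : Fin (m + n) → MvPolynomial (Fin n) ℂ :=
    Fin.append p (fun i : Fin n => (X i : MvPolynomial (Fin n) ℂ)) with hqdef
  have hq : ∀ z, nrm q z = nrm p z + nn z := by
    intro z
    unfold nrm nn
    rw [Fin.sum_univ_add]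
    simp [hqdef]
  obtain ⟨G, hG⟩ := exists_nrm q
  have hF : ∀ z, ev (C (B + 1) - G) z = (B + 1) - nrm q z := by
    intro z
    rw [ev_sub, ev_C, hG]
  obtain ⟨H, hH⟩ := hgen (C (B + 1) - G) (by
    intro z hz
    have h1 := hp z hz
    rw [ev_sub, ev_C, ev_WW] at h1
    rw [hF, hq, ← h1]
    ring)
  have hA := zb_of_nrm q (B + 1) _ hF
  have h1 := form_degrees q ((B + 1 : ℝ) : ℂ) ⟨Fin.natAdd m ⟨0, hn⟩, by
    rw [hqdef, Fin.append_right, totalDegree_X]⟩ _ hA
  have hF0 : (C (B + 1) - G : MvPolynomial (Fin n ⊕ Fin n) ℝ) ≠ 0 := by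
    intro h0
    have h2 : ∀ z, nrm q z = B + 1 := by
      intro z
      have := hF z
      rw [h0, ev_zero] at this
      linarith
    have h3 := h2 (fun _ => ((Real.sqrt (|B| + 2) : ℝ) : ℂ))
    rw [hq] at h3
    have h4 : 0 ≤ nrm p (fun _ => ((Real.sqrt (|B| + 2) : ℝ) : ℂ)) :=
      Finset.sum_nonneg fun _ _ => by positivity
    have h5 : (|B| + 2) ≤ nn (fun _ : Fin n => ((Real.sqrt (|B| + 2) : ℝ) : ℂ)) := by
      unfold nn
      have h6 : ∀ i : Fin n, ‖((Real.sqrt (|B| + 2) : ℝ) : ℂ)‖ ^ 2 = |B| + 2 := by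
        intro i
        rw [Complex.norm_real, Real.norm_eq_abs, sq_abs, Real.sq_sqrt (by positivity)]
      rw [Finset.sum_congr rfl fun i _ => h6 i]
      simp only [Finset.sum_const, Finset.card_univ, Fintype.card_fin, nsmul_eq_mul]
      have h7 : (1 : ℝ) ≤ n := by exact_mod_cast hn
      nlinarith [abs_nonneg B]
    linarith [le_abs_self B]
  have hr0 : r ≠ 0 := by
    rintro rfl
    rw [zero_mul] at hH
    exact hF0 hH
  have hH0 : H ≠ 0 := by
    rintro rfl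
    rw [mul_zero] at hH
    exact hF0 hH
  have hr1 := zb_ne_zero hr0
  have hH1 := zb_ne_zero hH0
  rw [hH, zb_mul, degz_mul hr1 hH1, totalDegree_mul_of_isDomain hr1 hH1] at h1
  have h2 := totalDegree_le_add (zb r)
  have h3 := totalDegree_le_add (zb H)
  rw [degw_zb] at h2 h3
  rw [← totalDegree_zb r]
  omega

end Pool.Agent.Work.MP_49847a_an
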